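import Pool.Agent.KS6_33.ZB.Defs

/-!
The two germs are topologically equisingular (a shear).
-/

set_option autoImplicit false

namespace Pool.Agent.KS6_33.ZB

/-- The function `h (y, z) = -(y² / z) · min (1, |z|³ / |y|⁵)`. -/
noncomputable def hh (y z : ℂ) : ℂ := -(y ^ 2 / z) * ((min 1 (‖z‖ ^ 3 / ‖y‖ ^ 5) : ℝ) : ℂ)

theorem hh_bound (y z : ℂ) : ‖hh y z‖ ^ 3 ≤ ‖y‖ := by
  by_cases hz : z = 0
  · unfold hh
    rw [hz]
    simp
  by_cases hy : y = 0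
  · unfold hh
    rw [hy]
    simp
  have hz' : 0 < ‖z‖ := norm_pos_iff.mpr hz
  have hy' : 0 < ‖y‖ := norm_pos_iff.mpr hy
  set a := ‖y‖ with ha
  set b := ‖z‖ with hb
  set t : ℝ := b ^ 3 / a ^ 5 with ht
  have ht0 : 0 < t := by positivity
  have hm0 : 0 < min 1 t := lt_min one_pos ht0
  have h1 : ‖hh y z‖ = a ^ 2 / b * min 1 t := by
    unfold hh
    rw [norm_mul, norm_neg, norm_div, norm_pow, Complex.norm_real, Real.norm_of_nonneg hm0.le]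
  rw [h1, mul_pow, div_pow]
  have hb3 : b ^ 3 = t * a ^ 5 := by
    rw [ht]
    field_simp
  rw [hb3]
  have h2 : (a ^ 2) ^ 3 / (t * a ^ 5) * min 1 t ^ 3 = a * (min 1 t ^ 3 / t) := by
    field_simp
  rw [h2]
  have h3 : min 1 t ^ 3 / t ≤ 1 := by
    rw [div_le_one ht0]
    have h4 : min 1 t ≤ 1 := min_le_left _ _
    have h5 : min 1 t ≤ t := min_le_right _ _
    have h6 : min 1 t ^ 3 ≤ min 1 t := by
      have := pow_le_one₀ (n := 2) hm0.le h4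
      calc min 1 t ^ 3 = min 1 t * min 1 t ^ 2 := by ring
        _ ≤ min 1 t * 1 := mul_le_mul_of_nonneg_left this hm0.le
        _ = min 1 t := mul_one _
    linarith
  calc a * (min 1 t ^ 3 / t) ≤ a * 1 := mul_le_mul_of_nonneg_left h3 hy'.le
    _ = a := mul_one a

theorem hh_cont_norm (y z : ℂ) : ‖hh y z‖ = ‖y‖ ^ 2 / ‖z‖ * min 1 (‖z‖ ^ 3 / ‖y‖ ^ 5) := by
  unfold hh
  rw [norm_mul, norm_neg, norm_div, norm_pow, Complex.norm_real, Real.norm_of_nonneg (by positivity)]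

theorem hh_cont_b (y z : ℂ) : ‖hh y z‖ ≤ ‖y‖ ^ 2 / ‖z‖ := by
  rw [hh_cont_norm]
  calc ‖y‖ ^ 2 / ‖z‖ * min 1 (‖z‖ ^ 3 / ‖y‖ ^ 5) ≤ ‖y‖ ^ 2 / ‖z‖ * 1 :=
        mul_le_mul_of_nonneg_left (min_le_left _ _) (by positivity)
    _ = ‖y‖ ^ 2 / ‖z‖ := mul_one _

theorem hh_cont_c (y z : ℂ) : ‖hh y z‖ ≤ ‖z‖ ^ 2 / ‖y‖ ^ 3 := by
  rw [hh_cont_norm]
  have h1 : ‖y‖ ^ 2 / ‖z‖ * min 1 (‖z‖ ^ 3 / ‖y‖ ^ 5) ≤ ‖y‖ ^ 2 / ‖z‖ * (‖z‖ ^ 3 / ‖y‖ ^ 5) :=
    mul_le_mul_of_nonneg_left (min_le_right _ _) (by positivity)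
  refine h1.trans ?_
  rcases eq_or_ne z 0 with hz | hz
  · subst hz; simp
  rcases eq_or_ne y 0 with hy | hy
  · subst hy; simp
  have hz' : ‖z‖ ≠ 0 := norm_ne_zero_iff.2 hz
  have hy' : ‖y‖ ≠ 0 := norm_ne_zero_iff.2 hy
  apply le_of_eq
  field_simp

theorem hh_cont_d (y z : ℂ) : ‖hh y z‖ ≤ ‖y‖ ^ (1 / 3 : ℝ) := by
  have h := Real.rpow_le_rpow (by positivity) (hh_bound y z) (by norm_num : (0 : ℝ) ≤ 1 / 3)
  have e : (‖hh y z‖ ^ 3) ^ (1 / 3 : ℝ) = ‖hh y z‖ := by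
    have := Real.pow_rpow_inv_natCast (norm_nonneg (hh y z)) (by norm_num : (3 : ℕ) ≠ 0)
    norm_num at this ⊢
    exact this
  rwa [e] at h

theorem hh_cont : Continuous (fun p : ℂ × ℂ => hh p.1 p.2) := by
  rw [continuous_iff_continuousAt]
  rintro ⟨y0, z0⟩
  by_cases hz : z0 = 0
  · by_cases hy : y0 = 0
    · subst hz; subst hy
      show Filter.Tendsto (fun p : ℂ × ℂ => hh p.1 p.2) (nhds (0, 0)) (nhds (hh 0 0))
      have h0 : hh 0 0 = 0 := by simp [hh]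
      rw [h0]
      refine squeeze_zero_norm (a := fun p : ℂ × ℂ => ‖p.1‖ ^ (1 / 3 : ℝ)) (fun p => hh_cont_d p.1 p.2) ?_
      have hc : Continuous (fun p : ℂ × ℂ => ‖p.1‖ ^ (1 / 3 : ℝ)) :=
        (continuous_fst.norm).rpow_const (fun _ => Or.inr (by norm_num))
      have := hc.tendsto ((0, 0) : ℂ × ℂ)
      simpa using this
    · subst hz
      show Filter.Tendsto (fun p : ℂ × ℂ => hh p.1 p.2) (nhds (y0, 0)) (nhds (hh y0 0))
      have h0 : hh y0 0 = 0 := by simp [hh]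
      rw [h0]
      refine squeeze_zero_norm (a := fun p : ℂ × ℂ => ‖p.2‖ ^ 2 / ‖p.1‖ ^ 3) (fun p => hh_cont_c p.1 p.2) ?_
      have hc : ContinuousAt (fun p : ℂ × ℂ => ‖p.2‖ ^ 2 / ‖p.1‖ ^ 3) (y0, 0) :=
        ContinuousAt.div (by fun_prop) (by fun_prop) (pow_ne_zero 3 (norm_ne_zero_iff.2 hy))
      have := hc.tendsto
      simpa using this
  · by_cases hy : y0 = 0
    · subst hy
      show Filter.Tendsto (fun p : ℂ × ℂ => hh p.1 p.2) (nhds (0, z0)) (nhds (hh 0 z0))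
      have h0 : hh 0 z0 = 0 := by simp [hh]
      rw [h0]
      refine squeeze_zero_norm (a := fun p : ℂ × ℂ => ‖p.1‖ ^ 2 / ‖p.2‖) (fun p => hh_cont_b p.1 p.2) ?_
      have hc : ContinuousAt (fun p : ℂ × ℂ => ‖p.1‖ ^ 2 / ‖p.2‖) (0, z0) :=
        ContinuousAt.div (by fun_prop) (by fun_prop) (norm_ne_zero_iff.2 hz)
      have := hc.tendsto
      simpa using this
    · unfold hh
      have h1 : ContinuousAt (fun p : ℂ × ℂ => p.1 ^ 2 / p.2) (y0, z0) :=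
        ContinuousAt.div (by fun_prop) (by fun_prop) hz
      have h2 : ContinuousAt (fun p : ℂ × ℂ => ‖p.2‖ ^ 3 / ‖p.1‖ ^ 5) (y0, z0) :=
        ContinuousAt.div (by fun_prop) (by fun_prop) (pow_ne_zero 5 (norm_ne_zero_iff.2 hy))
      have h3 : ContinuousAt (fun p : ℂ × ℂ => min 1 (‖p.2‖ ^ 3 / ‖p.1‖ ^ 5)) (y0, z0) :=
        continuousAt_const.min h2
      exact h1.neg.mul (Complex.continuous_ofReal.continuousAt.comp h3)

theorem sets_eq (x y z : ℂ) (hx : ‖x‖ < 1 / 4) (hy : ‖y‖ < 1 / 64) :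
    (y * (z ^ 3 * x + y ^ 5) + z ^ 6 = 0 ↔
      y * (z ^ 3 * (x + hh y z) + y ^ 5 + z ^ 2 * y ^ 2) + z ^ 6 = 0) := by
  by_cases hy0 : y = 0
  · simp [hy0]
  have ha : 0 < ‖y‖ := norm_pos_iff.mpr hy0
  by_cases hc : ‖y‖ ^ 5 ≤ ‖z‖ ^ 3
  · have hz0 : z ≠ 0 := by
      rintro rfl
      have h5 : 0 < ‖y‖ ^ 5 := by positivity
      simp at hc
      linarith
    have hmin : min 1 (‖z‖ ^ 3 / ‖y‖ ^ 5) = 1 := by
      apply min_eq_left
      rw [le_div_iff₀ (by positivity)]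
      linarith
    have hhh : hh y z = -(y ^ 2 / z) := by
      unfold hh
      rw [hmin]
      simp
    have he : z ^ 3 * (x + hh y z) + y ^ 5 + z ^ 2 * y ^ 2 = z ^ 3 * x + y ^ 5 := by
      rw [hhh]
      field_simp
      ring
    rw [he]
  · push Not at hc
    have hb0 : 0 ≤ ‖z‖ := norm_nonneg z
    have hH : ‖hh y z‖ < 1 / 4 := by
      apply lt_of_pow_lt_pow_left₀ 3 (by norm_num)
      have := hh_bound y z
      norm_num
      linarith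
    have hz2 : ‖z‖ ^ 2 < ‖y‖ ^ 3 / 4 := by
      apply lt_of_pow_lt_pow_left₀ 3 (by positivity)
      have h1 : (‖z‖ ^ 2) ^ 3 = (‖z‖ ^ 3) ^ 2 := by ring
      have h2 : (‖z‖ ^ 3) ^ 2 < (‖y‖ ^ 5) ^ 2 := by
        apply pow_lt_pow_left₀ hc (by positivity) (by norm_num)
      have h3 : (‖y‖ ^ 5) ^ 2 = ‖y‖ ^ 9 * ‖y‖ := by ring
      have h4 : ‖y‖ ^ 9 * ‖y‖ ≤ ‖y‖ ^ 9 * (1 / 64) :=
        mul_le_mul_of_nonneg_left hy.le (by positivity)
      have h5 : (‖y‖ ^ 3 / 4) ^ 3 = ‖y‖ ^ 9 * (1 / 64) := by ring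
      rw [h1, h5]
      linarith
    have ha5 : 0 < ‖y‖ ^ 5 := by positivity
    have ha6 : 0 < ‖y‖ ^ 6 := by positivity
    have hb3 : 0 ≤ ‖z‖ ^ 3 := by positivity
    -- `|z|^6 < |y|^6 / 4`
    have hz6 : ‖z ^ 6‖ < ‖y‖ ^ 6 / 4 := by
      rw [norm_pow]
      have h2 : (‖z‖ ^ 3) ^ 2 < (‖y‖ ^ 5) ^ 2 := by
        apply pow_lt_pow_left₀ hc (by positivity) (by norm_num)
      have h3 : ‖y‖ ^ 4 ≤ 1 / 4 := by
        have h4 : ‖y‖ ^ 4 ≤ (1 / 64) ^ 4 := pow_le_pow_left₀ ha.le hy.le 4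
        refine h4.trans ?_
        norm_num
      calc ‖z‖ ^ 6 = (‖z‖ ^ 3) ^ 2 := by ring
        _ < (‖y‖ ^ 5) ^ 2 := h2
        _ = ‖y‖ ^ 6 * ‖y‖ ^ 4 := by ring
        _ ≤ ‖y‖ ^ 6 * (1 / 4) := mul_le_mul_of_nonneg_left h3 ha6.le
        _ = ‖y‖ ^ 6 / 4 := by ring
    have t1 : ‖z ^ 3 * x‖ ≤ ‖y‖ ^ 5 / 4 := by
      rw [norm_mul, norm_pow]
      have : ‖z‖ ^ 3 * ‖x‖ ≤ ‖y‖ ^ 5 * (1 / 4) :=
        mul_le_mul hc.le hx.le (norm_nonneg _) ha5.le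
      linarith
    have t2 : ‖z ^ 3 * hh y z‖ ≤ ‖y‖ ^ 5 / 4 := by
      rw [norm_mul, norm_pow]
      have : ‖z‖ ^ 3 * ‖hh y z‖ ≤ ‖y‖ ^ 5 * (1 / 4) :=
        mul_le_mul hc.le hH.le (norm_nonneg _) ha5.le
      linarith
    have t3 : ‖z ^ 2 * y ^ 2‖ ≤ ‖y‖ ^ 5 / 4 := by
      rw [norm_mul, norm_pow, norm_pow]
      have : ‖z‖ ^ 2 * ‖y‖ ^ 2 ≤ (‖y‖ ^ 3 / 4) * ‖y‖ ^ 2 :=
        mul_le_mul_of_nonneg_right hz2.le (by positivity)
      have h5 : (‖y‖ ^ 3 / 4) * ‖y‖ ^ 2 = ‖y‖ ^ 5 / 4 := by ring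
      linarith
    have hy5 : ‖y ^ 5‖ = ‖y‖ ^ 5 := norm_pow y 5
    -- a sum `y (a + y⁵) + z⁶` with `|a| ≤ 3/4 |y|⁵` does not vanish
    have key : ∀ a : ℂ, ‖a‖ ≤ 3 * ‖y‖ ^ 5 / 4 → y * (a + y ^ 5) + z ^ 6 ≠ 0 := by
      intro a h1 h0
      have h2 : y ^ 6 = -(y * a + z ^ 6) := by linear_combination h0
      have h3 : ‖y‖ ^ 6 ≤ ‖y‖ * ‖a‖ + ‖z ^ 6‖ := by
        calc ‖y‖ ^ 6 = ‖y ^ 6‖ := (norm_pow y 6).symm
          _ = ‖y * a + z ^ 6‖ := by rw [h2, norm_neg]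
          _ ≤ ‖y * a‖ + ‖z ^ 6‖ := norm_add_le _ _
          _ = ‖y‖ * ‖a‖ + ‖z ^ 6‖ := by rw [norm_mul]
      have h4 : ‖y‖ * ‖a‖ ≤ ‖y‖ * (3 * ‖y‖ ^ 5 / 4) := mul_le_mul_of_nonneg_left h1 ha.le
      have h5 : ‖y‖ * (3 * ‖y‖ ^ 5 / 4) = 3 * ‖y‖ ^ 6 / 4 := by ring
      linarith
    have n1 : y * (z ^ 3 * x + y ^ 5) + z ^ 6 ≠ 0 := key _ (by linarith)
    have n2 : y * (z ^ 3 * (x + hh y z) + y ^ 5 + z ^ 2 * y ^ 2) + z ^ 6 ≠ 0 := by
      have h3 := norm_add₃_le (a := z ^ 3 * x) (b := z ^ 3 * hh y z) (c := z ^ 2 * y ^ 2)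
      have h4 := key (z ^ 3 * x + z ^ 3 * hh y z + z ^ 2 * y ^ 2) (by linarith)
      intro h5
      apply h4
      rw [← h5]
      ring
    exact ⟨fun h => absurd h n1, fun h => absurd h n2⟩

/-- the shear in the direction of the coordinate `0` -/
noncomputable def shearOf {m : ℕ} (k : ℂ × ℂ → ℂ) (hk : Continuous k) :
    (Fin (m + 3) → ℂ) ≃ₜ (Fin (m + 3) → ℂ) where
  toFun v := Function.update v 0 (v 0 + k (v 1, v 2))
  invFun v := Function.update v 0 (v 0 - k (v 1, v 2))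
  left_inv v := by
    have e1 : Function.update v 0 (v 0 + k (v 1, v 2)) 1 = v 1 := Function.update_of_ne h10 _ _
    have e2 : Function.update v 0 (v 0 + k (v 1, v 2)) 2 = v 2 := Function.update_of_ne h20 _ _
    simp only [e1, e2, Function.update_self, add_sub_cancel_right, Function.update_idem,
      Function.update_eq_self]
  right_inv v := by
    have e1 : Function.update v 0 (v 0 - k (v 1, v 2)) 1 = v 1 := Function.update_of_ne h10 _ _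
    have e2 : Function.update v 0 (v 0 - k (v 1, v 2)) 2 = v 2 := Function.update_of_ne h20 _ _
    simp only [e1, e2, Function.update_self, sub_add_cancel, Function.update_idem,
      Function.update_eq_self]
  continuous_toFun := by
    have h : Continuous (fun v : Fin (m + 3) → ℂ => k (v 1, v 2)) :=
      hk.comp ((continuous_apply 1).prodMk (continuous_apply 2))
    exact continuous_id.update 0 ((continuous_apply 0).add h)
  continuous_invFun := by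
    have h : Continuous (fun v : Fin (m + 3) → ℂ => k (v 1, v 2)) :=
      hk.comp ((continuous_apply 1).prodMk (continuous_apply 2))
    exact continuous_id.update 0 ((continuous_apply 0).sub h)

theorem equi_aux {n : ℕ} (e : (Fin n → ℂ) ≃ₜ (Fin n → ℂ)) (he : e 0 = 0)
    (V V' U : Set (Fin n → ℂ))
    (hU : IsOpen U) (h0 : (0 : Fin n → ℂ) ∈ U) (h : ∀ v ∈ U, (v ∈ V ↔ e v ∈ V')) :
    TopEquisingular V 0 V' 0 := by
  have hsrc : (e.toOpenPartialHomeomorph.restrOpen U hU).source = U := by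
    rw [OpenPartialHomeomorph.restrOpen_source]
    simp
  refine ⟨e.toOpenPartialHomeomorph.restrOpen U hU, ?_, he, ?_⟩
  · rw [hsrc]
    exact h0
  · set g := e.toOpenPartialHomeomorph.restrOpen U hU with hg
    have hval : ∀ v, g v = e v := fun v => rfl
    ext w
    constructor
    · rintro ⟨v, ⟨hv1, hv2⟩, rfl⟩
      refine ⟨?_, g.map_source hv2⟩
      rw [hval]
      rw [hsrc] at hv2
      exact (h v hv2).1 hv1
    · rintro ⟨hw1, hw2⟩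
      have hs := g.map_target hw2
      refine ⟨g.symm w, ⟨?_, hs⟩, g.right_inv hw2⟩
      have hs' := hs
      rw [hsrc] at hs'
      rw [h _ hs', ← hval, g.right_inv hw2]
      exact hw1

theorem equisingular (m : ℕ) : TopEquisingular (zeroSet (f₀ m)) 0 (zeroSet (f₁ m)) 0 := by
  have hU : IsOpen {v : Fin (m + 3) → ℂ | ‖v 0‖ < 1 / 4 ∧ ‖v 1‖ < 1 / 64} :=
    (isOpen_lt (continuous_apply 0).norm continuous_const).inter
      (isOpen_lt (continuous_apply 1).norm continuous_const)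
  refine equi_aux (shearOf (fun p : ℂ × ℂ => hh p.1 p.2) hh_cont) ?_ _ _ _ hU ?_ ?_
  · have h00 : hh 0 0 = 0 := by simp [hh]
    show Function.update (0 : Fin (m + 3) → ℂ) 0 ((0 : ℂ) + hh 0 0) = 0
    rw [h00, add_zero]
    exact Function.update_eq_self 0 (0 : Fin (m + 3) → ℂ)
  · constructor <;> simp
  · rintro v ⟨h1, h2⟩
    rw [mem_f₀, mem_f₁]
    show _ ↔ Function.update v 0 (v 0 + hh (v 1) (v 2)) 1 *
      (Function.update v 0 (v 0 + hh (v 1) (v 2)) 2 ^ 3 *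
        Function.update v 0 (v 0 + hh (v 1) (v 2)) 0 +
        Function.update v 0 (v 0 + hh (v 1) (v 2)) 1 ^ 5 +
        Function.update v 0 (v 0 + hh (v 1) (v 2)) 2 ^ 2 *
        Function.update v 0 (v 0 + hh (v 1) (v 2)) 1 ^ 2) +
        Function.update v 0 (v 0 + hh (v 1) (v 2)) 2 ^ 6 = 0
    have e1 : Function.update v 0 (v 0 + hh (v 1) (v 2)) 1 = v 1 := Function.update_of_ne h10 _ _
    have e2 : Function.update v 0 (v 0 + hh (v 1) (v 2)) 2 = v 2 := Function.update_of_ne h20 _ _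
    rw [e1, e2, Function.update_self]
    exact sets_eq _ _ _ h1 h2

end Pool.Agent.KS6_33.ZB
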