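import Pool.Agent.KS6_33.ZB.A

/-!
The exceptional varieties of the two germs.
-/

set_option autoImplicit false

namespace Pool.Agent.KS6_33.ZB

theorem exc_upper_wd {n : ℕ} (F : (Fin n → ℂ) → ℂ) (m : ℕ)
    (hhom : ∀ (c : ℂ) (v : Fin n → ℂ), F (c • v) = c ^ m * F v) (c : ℂ) (hc : c ≠ 0)
    (v : Fin n → ℂ) : ‖F (c • v)‖ / ‖c • v‖ ^ m = ‖F v‖ / ‖v‖ ^ m := by
  rw [hhom, norm_mul, norm_pow, norm_smul, mul_pow, mul_div_mul_left]
  exact pow_ne_zero _ (norm_ne_zero_iff.mpr hc)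

/-- upper bound for the exceptional variety: if `F` is homogeneous of degree `m` and every point of `V`
satisfies `‖F v‖ ≤ ‖v‖ ^ (m+1)`, then `F` vanishes on the exceptional variety of `V`. -/
theorem exc_upper {n : ℕ} (V : Set (Fin n → ℂ)) (F : (Fin n → ℂ) → ℂ) (m : ℕ) (hF : Continuous F)
    (hhom : ∀ (c : ℂ) (v : Fin n → ℂ), F (c • v) = c ^ m * F v)
    (hV : ∀ v ∈ V, ‖F v‖ ≤ ‖v‖ ^ (m + 1))
    (w : Fin n → ℂ) (hw : w ≠ 0) (h : lineOf w hw ∈ excVariety V) : F w = 0 := by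
  let g : {v : Fin n → ℂ // v ≠ 0} → ℝ := fun v => ‖F v‖ / ‖(v : Fin n → ℂ)‖ ^ m
  have hgc : Continuous g := by
    refine (continuous_norm.comp (hF.comp continuous_subtype_val)).div
      ((continuous_norm.comp continuous_subtype_val).pow m) fun v => ?_
    exact pow_ne_zero _ (norm_ne_zero_iff.mpr v.2)
  have hg : ∀ a b : {v : Fin n → ℂ // v ≠ 0}, (projectivizationSetoid ℂ (Fin n → ℂ)).r a b →
      g a = g b := by
    rintro a b ⟨c, hc⟩
    have h1 : (c : ℂ) • (b : Fin n → ℂ) = a := hc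
    show ‖F a‖ / ‖(a : Fin n → ℂ)‖ ^ m = ‖F b‖ / ‖(b : Fin n → ℂ)‖ ^ m
    rw [← h1]
    exact exc_upper_wd F m hhom c c.ne_zero b
  let φ : PSpace n → ℝ := Quotient.lift (s := projectivizationSetoid ℂ (Fin n → ℂ)) g hg
  have hφ : Continuous φ := Continuous.quotient_lift hgc hg
  have hmk : ∀ (u : Fin n → ℂ) (hu : u ≠ 0), φ (Projectivization.mk ℂ u hu) = ‖F u‖ / ‖u‖ ^ m :=
    fun u hu => rfl
  let C : Set (BlowUp n) := {p | φ p.1.2 ≤ ‖p.1.1‖}
  have hC : IsClosed C := isClosed_le (hφ.comp (continuous_snd.comp continuous_subtype_val))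
    (continuous_norm.comp (continuous_fst.comp continuous_subtype_val))
  have hsub : {p : BlowUp n | p.T ∈ V ∧ p.T ≠ 0} ⊆ C := by
    rintro ⟨⟨v, l⟩, hvl⟩ ⟨hp1, hp2⟩
    show φ l ≤ ‖v‖
    have hv : v ∈ V := hp1
    have hv0 : v ≠ 0 := hp2
    have hvn : 0 < ‖v‖ := norm_pos_iff.mpr hv0
    obtain ⟨u, hu, rfl⟩ : ∃ u, ∃ hu : u ≠ 0, l = Projectivization.mk ℂ u hu :=
      ⟨Projectivization.rep l, Projectivization.rep_nonzero l, (Projectivization.mk_rep l).symm⟩
    have hmem : v ∈ Projectivization.submodule (K := ℂ) (V := Fin n → ℂ)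
      (Projectivization.mk ℂ u hu) := hvl
    rw [Projectivization.submodule_mk, Submodule.mem_span_singleton] at hmem
    obtain ⟨c, hc⟩ := hmem
    have hc0 : c ≠ 0 := by
      rintro rfl
      exact hv0 (by rw [← hc, zero_smul])
    rw [hmk, ← exc_upper_wd F m hhom c hc0 u, hc, div_le_iff₀ (pow_pos hvn m)]
    have := hV v hv
    rwa [pow_succ, mul_comm] at this
  have h1 : excPoint (lineOf w hw) ∈ C := closure_minimal hsub hC h
  have h2 : φ (Projectivization.mk ℂ w hw) ≤ ‖(0 : Fin n → ℂ)‖ := h1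
  rw [hmk, norm_zero] at h2
  have hwn : 0 < ‖w‖ ^ m := pow_pos (norm_pos_iff.mpr hw) m
  have h3 : ‖F w‖ ≤ 0 := by
    rw [div_le_iff₀ hwn, zero_mul] at h2
    exact h2
  exact norm_le_zero_iff.mp h3

/-- lower bound for the exceptional variety: if `u σ → w` and `s σ → 0` as `σ → 0`, `σ ≠ 0`, with
`s σ ≠ 0` and `s σ • u σ ∈ V`, then the line of `w` is in the exceptional variety of `V`. -/
theorem exc_lower {n : ℕ} (V : Set (Fin n → ℂ)) (w : Fin n → ℂ) (hw : w ≠ 0)
    (u : ℂ → Fin n → ℂ) (s : ℂ → ℂ) (hu : Filter.Tendsto u (nhdsWithin 0 {0}ᶜ) (nhds w))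
    (hs : Filter.Tendsto s (nhdsWithin 0 {0}ᶜ) (nhds 0))
    (h : ∀ᶠ σ in nhdsWithin (0 : ℂ) {0}ᶜ, s σ ≠ 0 ∧ s σ • u σ ∈ V) :
    lineOf w hw ∈ excVariety V := by
  classical
  let u' : ℂ → {v : Fin n → ℂ // v ≠ 0} := fun σ => if h : u σ ≠ 0 then ⟨u σ, h⟩ else ⟨w, hw⟩
  have hne : ∀ᶠ σ in nhdsWithin (0 : ℂ) {0}ᶜ, u σ ≠ 0 := hu.eventually_ne hw
  have hu'1 : ∀ σ, u σ ≠ 0 → (u' σ).1 = u σ := by
    intro σ hσ
    simp only [u', dif_pos hσ]
  have hu' : Filter.Tendsto u' (nhdsWithin 0 {0}ᶜ) (nhds ⟨w, hw⟩) := by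
    rw [tendsto_subtype_rng]
    refine hu.congr' ?_
    filter_upwards [hne] with σ hσ
    exact (hu'1 σ hσ).symm
  have hq : Continuous (fun v : {v : Fin n → ℂ // v ≠ 0} => (lineOf v.1 v.2 : PSpace n)) :=
    continuous_quotient_mk'
  have hmem : ∀ σ, s σ • (u' σ).1 ∈ Projectivization.submodule (K := ℂ) (V := Fin n → ℂ)
      (lineOf (u' σ).1 (u' σ).2) := by
    intro σ
    unfold lineOf
    rw [Projectivization.submodule_mk]
    exact Submodule.smul_mem _ _ (Submodule.mem_span_singleton_self _)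
  let g : ℂ → BlowUp n := fun σ => ⟨(s σ • (u' σ).1, lineOf (u' σ).1 (u' σ).2), hmem σ⟩
  have hg : Filter.Tendsto g (nhdsWithin 0 {0}ᶜ) (nhds (excPoint (lineOf w hw))) := by
    have h1 : Filter.Tendsto (fun σ => ((s σ • (u' σ).1, lineOf (u' σ).1 (u' σ).2) :
        (Fin n → ℂ) × PSpace n)) (nhdsWithin 0 {0}ᶜ) (nhds (0, lineOf w hw)) := by
      refine Filter.Tendsto.prodMk_nhds ?_ ?_
      · have h2 : Filter.Tendsto (fun σ => (u' σ).1) (nhdsWithin 0 {0}ᶜ) (nhds w) :=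
          tendsto_subtype_rng.1 hu'
        have := hs.smul h2
        rwa [zero_smul] at this
      · exact (hq.tendsto ⟨w, hw⟩).comp hu'
    exact tendsto_subtype_rng.2 h1
  refine mem_closure_of_tendsto hg ?_
  filter_upwards [hne, h] with σ h1 h2
  have e : (g σ).T = s σ • u σ := by
    show s σ • (u' σ).1 = s σ • u σ
    rw [hu'1 σ h1]
  refine ⟨?_, ?_⟩
  · rw [e]; exact h2.2
  · rw [e]; exact smul_ne_zero h2.1 h1

open Filter Topology

/-- the exceptional variety is closed -/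
theorem exc_closed {n : ℕ} (V : Set (Fin n → ℂ)) : IsClosed (excVariety V) := by
  have hc : Continuous (fun l : PSpace n => (excPoint l : BlowUp n)) :=
    Continuous.subtype_mk (continuous_const.prodMk continuous_id) _
  exact isClosed_closure.preimage hc

theorem lineOf_cont {n : ℕ} :
    Continuous (fun v : {v : Fin n → ℂ // v ≠ 0} => (lineOf v.1 v.2 : PSpace n)) :=
  continuous_quotient_mk'

/-- a line is in a closed set of lines as soon as it is a limit of lines in this set -/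
theorem mem_of_limit {n : ℕ} {S : Set (PSpace n)} (hS : IsClosed S) (w : Fin n → ℂ) (hw : w ≠ 0)
    (u : ℂ → Fin n → ℂ) (hu : Tendsto u (𝓝[≠] 0) (𝓝 w))
    (h : ∀ᶠ σ in 𝓝[≠] (0 : ℂ), ∀ hσ : u σ ≠ 0, lineOf (u σ) hσ ∈ S) :
    lineOf w hw ∈ S := by
  classical
  let u' : ℂ → {v : Fin n → ℂ // v ≠ 0} := fun σ => if h : u σ ≠ 0 then ⟨u σ, h⟩ else ⟨w, hw⟩
  have hne : ∀ᶠ σ in 𝓝[≠] (0 : ℂ), u σ ≠ 0 := hu.eventually_ne hw
  have hu'1 : ∀ σ, ∀ h : u σ ≠ 0, u' σ = ⟨u σ, h⟩ := by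
    intro σ hσ
    simp only [u', dif_pos hσ]
  have hu' : Tendsto u' (𝓝[≠] 0) (𝓝 ⟨w, hw⟩) := by
    rw [tendsto_subtype_rng]
    refine hu.congr' ?_
    filter_upwards [hne] with σ hσ
    rw [hu'1 σ hσ]
  have h2 : Tendsto (fun σ => lineOf (u' σ).1 (u' σ).2) (𝓝[≠] 0) (𝓝 (lineOf w hw)) :=
    (lineOf_cont.tendsto ⟨w, hw⟩).comp hu'
  refine hS.mem_of_tendsto h2 ?_
  filter_upwards [hne, h] with σ h3 h4
  rw [hu'1 σ h3]
  exact h4 h3

/-- a nonzero polynomial does not vanish near `0` outside of `0` -/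
theorem poly_ne (p : Polynomial ℂ) (hp : p ≠ 0) : ∀ᶠ σ in 𝓝[≠] (0 : ℂ), p.eval σ ≠ 0 := by
  have hf : {σ : ℂ | p.eval σ = 0}.Finite := by
    refine (p.roots.toFinset.finite_toSet).subset ?_
    intro σ hσ
    simp only [Finset.mem_coe, Multiset.mem_toFinset]
    rw [Polynomial.mem_roots hp]
    exact hσ
  have h1 : ({σ : ℂ | p.eval σ = 0} \ {0})ᶜ ∈ 𝓝 (0 : ℂ) :=
    (hf.subset Set.diff_subset).isClosed.isOpen_compl.mem_nhds (by simp)
  filter_upwards [nhdsWithin_le_nhds h1, self_mem_nhdsWithin] with σ h2 h3 h4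
  exact h2 ⟨h4, h3⟩

theorem lin_ne (a : ℂ) : ∀ᶠ σ in 𝓝[≠] (0 : ℂ), a + σ ≠ 0 := by
  have h := poly_ne (Polynomial.C a + Polynomial.X) (by
    rw [add_comm]
    exact Polynomial.X_add_C_ne_zero a)
  simpa using h

/-- the vector `w + σ e_i` -/
noncomputable def pert {n : ℕ} (w : Fin n → ℂ) (i : Fin n) (σ : ℂ) : Fin n → ℂ :=
  Function.update w i (w i + σ)

theorem pert_self {n : ℕ} (w : Fin n → ℂ) (i : Fin n) (σ : ℂ) : pert w i σ i = w i + σ :=
  Function.update_self _ _ _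

theorem pert_ne {n : ℕ} (w : Fin n → ℂ) {i j : Fin n} (h : j ≠ i) (σ : ℂ) :
    pert w i σ j = w j := Function.update_of_ne h _ _

theorem pert_tendsto {n : ℕ} (w : Fin n → ℂ) (i : Fin n) :
    Tendsto (pert w i) (𝓝[≠] 0) (𝓝 w) := by
  have hc : Continuous (pert w i) := continuous_const.update i (continuous_const.add continuous_id)
  have h := hc.tendsto 0
  have h0 : pert w i 0 = w := by
    unfold pert
    rw [add_zero]
    exact Function.update_eq_self i w
  rw [h0] at h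
  exact h.mono_left nhdsWithin_le_nhds

/-- A hypersurface `F₅ + F₆ = 0` with `F₅`, `F₆` homogeneous of degree five and six: the lines on
which `F₅` vanishes and `F₆` does not are in the exceptional variety. -/
theorem exc_two {n : ℕ} (V : Set (Fin n → ℂ)) (F G : (Fin n → ℂ) → ℂ) (hF : Continuous F)
    (hG : Continuous G) (hF5 : ∀ (c : ℂ) (v : Fin n → ℂ), F (c • v) = c ^ 5 * F v)
    (hG6 : ∀ (c : ℂ) (v : Fin n → ℂ), G (c • v) = c ^ 6 * G v)
    (hV : ∀ v, v ∈ V ↔ F v + G v = 0) (w : Fin n → ℂ) (hw : w ≠ 0) (h1 : F w = 0) (h2 : G w ≠ 0)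
    (u : ℂ → Fin n → ℂ) (hu : Tendsto u (𝓝[≠] 0) (𝓝 w))
    (h : ∀ᶠ σ in 𝓝[≠] (0 : ℂ), F (u σ) ≠ 0) : lineOf w hw ∈ excVariety V := by
  refine exc_lower V w hw u (fun σ => -F (u σ) / G (u σ)) hu ?_ ?_
  · have h3 : Tendsto (fun σ => F (u σ)) (𝓝[≠] 0) (𝓝 (F w)) := (hF.tendsto w).comp hu
    have h4 : Tendsto (fun σ => G (u σ)) (𝓝[≠] 0) (𝓝 (G w)) := (hG.tendsto w).comp hu
    have h5 := h3.neg.div h4 h2
    rw [h1, neg_zero, zero_div] at h5
    exact h5
  · have h4 : Tendsto (fun σ => G (u σ)) (𝓝[≠] 0) (𝓝 (G w)) := (hG.tendsto w).comp hu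
    filter_upwards [h, h4.eventually_ne h2] with σ h5 h6
    refine ⟨div_ne_zero (neg_ne_zero.2 h5) h6, ?_⟩
    rw [hV, hF5, hG6]
    field_simp
    ring

theorem exc_two_upper {n : ℕ} (V : Set (Fin n → ℂ)) (F G : (Fin n → ℂ) → ℂ) (hF : Continuous F)
    (hF5 : ∀ (c : ℂ) (v : Fin n → ℂ), F (c • v) = c ^ 5 * F v)
    (hG : ∀ v, ‖G v‖ ≤ 2 * ‖v‖ ^ 6)
    (hV : ∀ v, v ∈ V ↔ F v + G v = 0) (w : Fin n → ℂ) (hw : w ≠ 0)
    (h : lineOf w hw ∈ excVariety V) : F w = 0 := by
  have h1 := exc_upper V (fun v => F v / 2) 5 (hF.div_const 2) ?_ ?_ w hw h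
  · have h2 : F w / 2 = 0 := h1
    rcases div_eq_zero_iff.1 h2 with h3 | h3
    · exact h3
    · norm_num at h3
  · intro c v
    show F (c • v) / 2 = c ^ 5 * (F v / 2)
    rw [hF5]
    ring
  · intro v hv
    rw [hV] at hv
    show ‖F v / 2‖ ≤ ‖v‖ ^ 6
    have h2 : F v = -G v := by linear_combination hv
    rw [h2, norm_div, norm_neg]
    have h3 := hG v
    have h4 : ‖(2 : ℂ)‖ = 2 := by norm_num
    rw [h4]
    linarith

/-- the degree six part -/
noncomputable def G6 {m : ℕ} (v : Fin (m + 3) → ℂ) : ℂ := v 1 ^ 6 + v 2 ^ 6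

theorem G6_hom {m : ℕ} (c : ℂ) (v : Fin (m + 3) → ℂ) : G6 (c • v) = c ^ 6 * G6 v := by
  simp only [G6, Pi.smul_apply, smul_eq_mul]
  ring

theorem G6_bound {m : ℕ} (v : Fin (m + 3) → ℂ) : ‖G6 v‖ ≤ 2 * ‖v‖ ^ 6 := by
  have h1 : ‖v 1 ^ 6‖ ≤ ‖v‖ ^ 6 := by
    rw [norm_pow]
    exact pow_le_pow_left₀ (norm_nonneg _) (norm_le_pi_norm v 1) 6
  have h2 : ‖v 2 ^ 6‖ ≤ ‖v‖ ^ 6 := by
    rw [norm_pow]
    exact pow_le_pow_left₀ (norm_nonneg _) (norm_le_pi_norm v 2) 6
  have h3 := norm_add_le (v 1 ^ 6) (v 2 ^ 6)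
  unfold G6
  linarith

theorem G6_cont {m : ℕ} : Continuous (G6 (m := m)) := by
  unfold G6
  fun_prop

/-- the degree five parts -/
noncomputable def F50 {m : ℕ} (v : Fin (m + 3) → ℂ) : ℂ := v 0 * v 1 * v 2 ^ 3

noncomputable def F51 {m : ℕ} (v : Fin (m + 3) → ℂ) : ℂ :=
  v 1 * v 2 ^ 2 * (v 0 * v 2 + v 1 ^ 2)

theorem F50_cont {m : ℕ} : Continuous (F50 (m := m)) := by
  unfold F50
  fun_prop

theorem F51_cont {m : ℕ} : Continuous (F51 (m := m)) := by
  unfold F51
  fun_prop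

theorem F50_hom {m : ℕ} (c : ℂ) (v : Fin (m + 3) → ℂ) : F50 (c • v) = c ^ 5 * F50 v := by
  simp only [F50, Pi.smul_apply, smul_eq_mul]
  ring

theorem F51_hom {m : ℕ} (c : ℂ) (v : Fin (m + 3) → ℂ) : F51 (c • v) = c ^ 5 * F51 v := by
  simp only [F51, Pi.smul_apply, smul_eq_mul]
  ring

theorem mem0 {m : ℕ} (v : Fin (m + 3) → ℂ) : v ∈ zeroSet (f₀ m) ↔ F50 v + G6 v = 0 := by
  rw [mem_f₀, F50, G6]
  constructor <;> intro h <;> linear_combination h

theorem mem1 {m : ℕ} (v : Fin (m + 3) → ℂ) : v ∈ zeroSet (f₁ m) ↔ F51 v + G6 v = 0 := by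
  rw [mem_f₁, F51, G6]
  constructor <;> intro h <;> linear_combination h

/-- the vector `w + σ (e₀ + e₁ + e₂)` -/
noncomputable def pert3 {m : ℕ} (w : Fin (m + 3) → ℂ) (σ : ℂ) : Fin (m + 3) → ℂ :=
  w + σ • (fun _ => 1)

theorem pert3_apply {m : ℕ} (w : Fin (m + 3) → ℂ) (σ : ℂ) (i : Fin (m + 3)) :
    pert3 w σ i = w i + σ := by
  simp [pert3]

theorem pert3_tendsto {m : ℕ} (w : Fin (m + 3) → ℂ) : Tendsto (pert3 w) (𝓝[≠] 0) (𝓝 w) := by
  have hc : Continuous (pert3 w) :=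
    continuous_const.add (continuous_id.smul continuous_const)
  have h := hc.tendsto 0
  have h0 : pert3 w 0 = w := by
    simp [pert3]
  rw [h0] at h
  exact h.mono_left nhdsWithin_le_nhds

theorem F50_pert {m : ℕ} (w : Fin (m + 3) → ℂ) : ∀ᶠ σ in 𝓝[≠] (0 : ℂ), F50 (pert3 w σ) ≠ 0 := by
  filter_upwards [lin_ne (w 0), lin_ne (w 1), lin_ne (w 2)] with σ h0 h1 h2
  simp only [F50, pert3_apply]
  exact mul_ne_zero (mul_ne_zero h0 h1) (pow_ne_zero _ h2)

theorem quad_ne (a b c : ℂ) :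
    ∀ᶠ σ in 𝓝[≠] (0 : ℂ), (a + σ) * (c + σ) + (b + σ) ^ 2 ≠ 0 := by
  have h00 : ∀ d e : ℂ, Polynomial.C (2 : ℂ) * Polynomial.X ^ 2 + Polynomial.C d * Polynomial.X
      + Polynomial.C e ≠ 0 := by
    intro d e h0
    have := congrArg (fun p => Polynomial.coeff p 2) h0
    simp [Polynomial.coeff_X, Polynomial.coeff_C] at this
  have h := poly_ne (Polynomial.C 2 * Polynomial.X ^ 2 + Polynomial.C (a + c + 2 * b) * Polynomial.X
    + Polynomial.C (a * c + b ^ 2)) (h00 _ _)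
  filter_upwards [h] with σ h1 h2
  apply h1
  simp only [Polynomial.eval_add, Polynomial.eval_mul, Polynomial.eval_C, Polynomial.eval_pow,
    Polynomial.eval_X]
  rw [← h2]
  ring

theorem F51_pert {m : ℕ} (w : Fin (m + 3) → ℂ) : ∀ᶠ σ in 𝓝[≠] (0 : ℂ), F51 (pert3 w σ) ≠ 0 := by
  filter_upwards [quad_ne (w 0) (w 1) (w 2), lin_ne (w 1), lin_ne (w 2)] with σ h0 h1 h2
  simp only [F51, pert3_apply]
  exact mul_ne_zero (mul_ne_zero h1 (pow_ne_zero _ h2)) h0

theorem pow6_ne (a c : ℂ) : ∀ᶠ σ in 𝓝[≠] (0 : ℂ), (a + σ) ^ 6 + c ^ 6 ≠ 0 := by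
  have h := poly_ne ((Polynomial.X + Polynomial.C a) ^ 6 + Polynomial.C (c ^ 6)) (by
      intro h0
      have h1 : ((Polynomial.X + Polynomial.C a : Polynomial ℂ) ^ 6).natDegree = 6 := by
        rw [Polynomial.natDegree_pow, Polynomial.natDegree_X_add_C]
      have h2 : (Polynomial.X + Polynomial.C a : Polynomial ℂ) ^ 6 = Polynomial.C (-c ^ 6) := by
        rw [Polynomial.C_neg]
        exact eq_neg_of_add_eq_zero_left h0
      rw [h2, Polynomial.natDegree_C] at h1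
      norm_num at h1)
  filter_upwards [h] with σ h1 h2
  apply h1
  simp only [Polynomial.eval_add, Polynomial.eval_C, Polynomial.eval_pow, Polynomial.eval_X]
  rw [← h2]
  ring

/-- points on which the degree five part vanishes are in the exceptional variety if they are limits
of such points with nonvanishing degree six part -/
theorem exc_zero (m : ℕ) (w : Fin (m + 3) → ℂ) (hw : w ≠ 0) :
    lineOf w hw ∈ excVariety (zeroSet (f₀ m)) ↔ w 0 * w 1 * w 2 = 0 := by
  constructor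
  · intro h
    have h1 := exc_two_upper (zeroSet (f₀ m)) F50 G6 F50_cont F50_hom G6_bound mem0 w hw h
    unfold F50 at h1
    rcases mul_eq_zero.1 h1 with h3 | h3
    · rw [h3, zero_mul]
    · rw [pow_eq_zero_iff (by norm_num)] at h3
      rw [h3, mul_zero]
  · intro h
    have key : ∀ w : Fin (m + 3) → ℂ, ∀ hw : w ≠ 0, w 0 * w 1 * w 2 = 0 → G6 w ≠ 0 →
        lineOf w hw ∈ excVariety (zeroSet (f₀ m)) := by
      intro w hw h1 h2
      refine exc_two (zeroSet (f₀ m)) F50 G6 F50_cont G6_cont F50_hom G6_hom mem0 w hw ?_ h2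
        (pert3 w) (pert3_tendsto w) (F50_pert w)
      unfold F50
      linear_combination w 2 ^ 2 * h1
    by_cases h1 : w 1 = 0
    · refine mem_of_limit (exc_closed _) w hw (pert w 2) (pert_tendsto w 2) ?_
      filter_upwards [lin_ne (w 2)] with σ h3 h4
      refine key _ h4 ?_ ?_
      · rw [pert_ne w h12, h1]
        ring
      · rw [G6, pert_ne w h12, h1, pert_self]
        simp [h3]
    · refine mem_of_limit (exc_closed _) w hw (pert w 1) (pert_tendsto w 1) ?_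
      filter_upwards [pow6_ne (w 1) (w 2)] with σ h3 h4
      have h5 : w 0 * w 2 = 0 := by
        have h6 : w 1 * (w 0 * w 2) = 0 := by linear_combination h
        exact (mul_eq_zero.1 h6).resolve_left h1
      refine key _ h4 ?_ ?_
      · rw [pert_ne w h01, pert_ne w h21, pert_self]
        linear_combination (w 1 + σ) * h5
      · rw [G6, pert_ne w h21, pert_self]
        exact h3

theorem exc_one (m : ℕ) (w : Fin (m + 3) → ℂ) (hw : w ≠ 0) :
    lineOf w hw ∈ excVariety (zeroSet (f₁ m)) ↔ w 1 * w 2 * (w 0 * w 2 + w 1 ^ 2) = 0 := by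
  constructor
  · intro h
    have h1 := exc_two_upper (zeroSet (f₁ m)) F51 G6 F51_cont F51_hom G6_bound mem1 w hw h
    unfold F51 at h1
    have h3 : (w 1 * w 2 * (w 0 * w 2 + w 1 ^ 2)) * w 2 = 0 := by
      linear_combination h1
    rcases mul_eq_zero.1 h3 with h4 | h4
    · exact h4
    · rw [h4]; ring
  · intro h
    have key : ∀ w : Fin (m + 3) → ℂ, ∀ hw : w ≠ 0, w 1 * w 2 * (w 0 * w 2 + w 1 ^ 2) = 0 →
        G6 w ≠ 0 → lineOf w hw ∈ excVariety (zeroSet (f₁ m)) := by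
      intro w hw h1 h2
      refine exc_two (zeroSet (f₁ m)) F51 G6 F51_cont G6_cont F51_hom G6_hom mem1 w hw ?_ h2
        (pert3 w) (pert3_tendsto w) (F51_pert w)
      unfold F51
      linear_combination w 2 * h1
    by_cases h1 : w 1 = 0
    · refine mem_of_limit (exc_closed _) w hw (pert w 2) (pert_tendsto w 2) ?_
      filter_upwards [lin_ne (w 2)] with σ h3 h4
      refine key _ h4 ?_ ?_
      · rw [pert_ne w h12, h1]
        ring
      · rw [G6, pert_ne w h12, h1, pert_self]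
        simp [h3]
    · by_cases h2 : w 2 = 0
      · refine mem_of_limit (exc_closed _) w hw (pert w 1) (pert_tendsto w 1) ?_
        filter_upwards [pow6_ne (w 1) (w 2)] with σ h3 h4
        refine key _ h4 ?_ ?_
        · rw [pert_ne w h21, h2]
          ring
        · rw [G6, pert_ne w h21, pert_self]
          exact h3
      · have h5 : w 0 * w 2 + w 1 ^ 2 = 0 := by
          rcases mul_eq_zero.1 h with h6 | h6
          · exact absurd h6 (mul_ne_zero h1 h2)
          · exact h6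
        have h6 : w 0 = -(w 1 ^ 2) / w 2 := by
          field_simp
          linear_combination h5
        refine mem_of_limit (exc_closed _) w hw
          (fun σ => Function.update (pert w 1 σ) 0 (-((w 1 + σ) ^ 2) / w 2)) ?_ ?_
        · have hc : Continuous (fun σ : ℂ =>
              Function.update (pert w 1 σ) 0 (-((w 1 + σ) ^ 2) / w 2)) := by
            refine Continuous.update ?_ 0 (by fun_prop)
            exact continuous_const.update 1 (continuous_const.add continuous_id)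
          have h7 := hc.tendsto 0
          have h8 : Function.update (pert w 1 0) 0 (-((w 1 + 0) ^ 2) / w 2) = w := by
            have h9 : pert w 1 0 = w := by
              unfold pert
              rw [add_zero]
              exact Function.update_eq_self 1 w
            rw [h9, add_zero, ← h6]
            exact Function.update_eq_self 0 w
          rw [h8] at h7
          exact h7.mono_left nhdsWithin_le_nhds
        · filter_upwards [pow6_ne (w 1) (w 2)] with σ h3 h4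
          refine key _ h4 ?_ ?_
          · rw [Function.update_self, Function.update_of_ne h10, Function.update_of_ne h20,
              pert_self, pert_ne w h21]
            field_simp
            ring
          · rw [G6, Function.update_of_ne h10, Function.update_of_ne h20,
              pert_self, pert_ne w h21]
            exact h3

end Pool.Agent.KS6_33.ZB
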