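import Pool.Agent.KS6_33.ZB.B
import Pool.Agent.KS6_33.ZB.IoD

/-!
Two spaces which are unions of three closed sets are not homeomorphic: the abstract part.
-/

set_option autoImplicit false

namespace Pool.Agent.KS6_33.ZB

open Filter Topology

/-- near the point `p` the space `X` has a continuous injection into `M` -/
def LocInj (M : Type*) [TopologicalSpace M] {X : Type*} [TopologicalSpace X] (p : X) : Prop :=
  ∃ U ∈ 𝓝 p, ∃ g : X → M, ContinuousOn g U ∧ Set.InjOn g U

theorem LocInj.map {M X Y : Type*} [TopologicalSpace M] [TopologicalSpace X] [TopologicalSpace Y]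
    (F : X ≃ₜ Y) {p : X} (h : LocInj M p) : LocInj M (F p) := by
  obtain ⟨U, hU, g, hg, hi⟩ := h
  refine ⟨F.symm ⁻¹' U, ?_, g ∘ F.symm, ?_, ?_⟩
  · apply F.symm.continuous.continuousAt.preimage_mem_nhds
    rwa [F.symm_apply_apply]
  · exact hg.comp F.symm.continuous.continuousOn fun x hx => hx
  · intro x hx y hy hxy
    exact F.symm.injective (hi hx hy hxy)

/-- The abstract argument: `X` is the union of the closures of three connected sets `C i` of points
which have local injections into `M`, and the closures of `C 0` and `C 1` meet inside of the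
closure of `C 2`; `Y` is the union of three closed sets `H a`, points in two of them have no local
injection into `M`, and for all `c` there is a point which is not in `H c`, but is in the closures of
the sets of points which are only in `H a`, `a ≠ c`. Then `X` and `Y` are not homeomorphic. -/
theorem abstract_no_homeo {M X Y : Type*} [TopologicalSpace M] [TopologicalSpace X]
    [TopologicalSpace Y] (F : X ≃ₜ Y) (C : Fin 3 → Set X) (hCc : ∀ i, IsPreconnected (C i))
    (hCn : ∀ i, (C i).Nonempty) (hCr : ∀ i, ∀ p ∈ C i, LocInj M p)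
    (hCu : ∀ p : X, ∃ i, p ∈ closure (C i))
    (hC2 : closure (C 0) ∩ closure (C 1) ⊆ closure (C 2))
    (H : Fin 3 → Set Y) (hHc : ∀ a, IsClosed (H a)) (hHu : ∀ y : Y, ∃ a, y ∈ H a)
    (hHr : ∀ y : Y, ∀ a b, a ≠ b → y ∈ H a → y ∈ H b → ¬ LocInj M y)
    (hHe : ∀ c, ∃ e : Y, e ∉ H c ∧ ∀ a, a ≠ c → e ∈ closure {y : Y | ∀ b, b ≠ a → y ∉ H b}) :
    False := by
  classical
  set D : Fin 3 → Set Y := fun a => {y : Y | ∀ b, b ≠ a → y ∉ H b} with hD
  have hDopen : ∀ a, IsOpen (D a) := by
    intro a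
    have : D a = ⋂ b : {b : Fin 3 // b ≠ a}, (H b)ᶜ := by
      ext y
      simp [hD]
    rw [this]
    exact isOpen_iInter_of_finite fun b => (hHc b).isOpen_compl
  have hDH : ∀ a, D a ⊆ H a := by
    intro a y hy
    obtain ⟨b, hb⟩ := hHu y
    by_cases h : b = a
    · rwa [h] at hb
    · exact absurd hb (hy b h)
  have hDdisj : ∀ a b, a ≠ b → Disjoint (D a) (D b) := by
    intro a b hab
    rw [Set.disjoint_left]
    intro y h1 h2
    exact h2 a hab (hDH a h1)
  have hreg : ∀ y : Y, LocInj M y → ∃ a, y ∈ D a := by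
    intro y hy
    obtain ⟨a, ha⟩ := hHu y
    refine ⟨a, fun b hb hyb => ?_⟩
    exact hHr y a b hb.symm ha hyb hy
  -- each `F (C i)` is contained in one `D a`
  have h1 : ∀ i, ∃ a, F '' C i ⊆ D a := by
    intro i
    have hsub : ∀ y ∈ F '' C i, ∃ a, y ∈ D a := by
      rintro _ ⟨x, hx, rfl⟩
      exact hreg _ ((hCr i x hx).map F)
    have hconn : IsPreconnected (F '' C i) := (hCc i).image F F.continuous.continuousOn
    obtain ⟨x, hx⟩ := hCn i
    obtain ⟨a, ha⟩ := hsub (F x) ⟨x, hx, rfl⟩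
    refine ⟨a, ?_⟩
    refine IsPreconnected.subset_left_of_subset_union (hDopen a)
      (isOpen_iUnion fun b : {b : Fin 3 // b ≠ a} => hDopen b) ?_ ?_ ⟨F x, ⟨x, hx, rfl⟩, ha⟩ hconn
    · rw [Set.disjoint_iUnion_right]
      intro b
      exact hDdisj a b b.2.symm
    · intro y hy
      obtain ⟨b, hb⟩ := hsub y hy
      by_cases h : b = a
      · left
        rwa [h] at hb
      · right
        exact Set.mem_iUnion.2 ⟨⟨b, h⟩, hb⟩
  choose s hs using h1
  have h2 : ∀ i, F '' closure (C i) ⊆ H (s i) := by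
    intro i
    rw [F.image_closure]
    exact closure_minimal ((hs i).trans (hDH _)) (hHc _)
  have h3 : ∀ y : Y, ∃ i, y ∈ F '' closure (C i) := by
    intro y
    obtain ⟨i, hi⟩ := hCu (F.symm y)
    exact ⟨i, F.symm y, hi, F.apply_symm_apply y⟩
  have hDn : ∀ a, (D a).Nonempty := by
    intro a
    obtain ⟨c, hc⟩ : ∃ c : Fin 3, a ≠ c := by
      refine ⟨a + 1, ?_⟩
      fin_cases a <;> decide
    obtain ⟨e, -, he⟩ := hHe c
    exact closure_nonempty_iff.1 ⟨e, he a hc⟩
  have h4 : Function.Surjective s := by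
    intro a
    obtain ⟨y, hy⟩ := hDn a
    obtain ⟨i, hi⟩ := h3 y
    refine ⟨i, ?_⟩
    by_contra hne
    exact hy (s i) hne (h2 i hi)
  have h5 : Function.Injective s := Finite.injective_iff_surjective.2 h4
  have h6 : ∀ i, closure (D (s i)) ⊆ F '' closure (C i) := by
    intro i
    refine closure_minimal ?_ (F.isClosedMap _ isClosed_closure)
    intro y hy
    obtain ⟨j, hj⟩ := h3 y
    have h7 : y ∈ H (s j) := h2 j hj
    by_cases hji : s j = s i
    · rwa [h5 hji] at hj
    · exact absurd h7 (hy _ hji)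
  obtain ⟨e, he1, he2⟩ := hHe (s 2)
  have h7 : e ∈ F '' closure (C 0) := h6 0 (he2 _ (fun h => by
    have := h5 h
    exact absurd this (by decide)))
  have h8 : e ∈ F '' closure (C 1) := h6 1 (he2 _ (fun h => by
    have := h5 h
    exact absurd this (by decide)))
  obtain ⟨x, hx, hxe⟩ := h7
  obtain ⟨x', hx', hxe'⟩ := h8
  have h9 : x = x' := F.injective (hxe.trans hxe'.symm)
  rw [← h9] at hx'
  have h10 : e ∈ F '' closure (C 2) := ⟨x, hC2 ⟨hx, hx'⟩, hxe⟩
  exact he1 (h2 2 h10)

/-- a vector spanning a line -/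
noncomputable def rp {n : ℕ} (l : PSpace n) : Fin n → ℂ := Projectivization.rep l

theorem rp_ne {n : ℕ} (l : PSpace n) : rp l ≠ 0 := Projectivization.rep_nonzero l

theorem lineOf_rp {n : ℕ} (l : PSpace n) : lineOf (rp l) (rp_ne l) = l :=
  Projectivization.mk_rep l

theorem lineOf_eq {n : ℕ} {v w : Fin n → ℂ} (hv : v ≠ 0) (hw : w ≠ 0) :
    lineOf v hv = lineOf w hw ↔ ∃ a : ℂ, a • w = v :=
  Projectivization.mk_eq_mk_iff' ℂ v w hv hw

theorem rp_lineOf {n : ℕ} (v : Fin n → ℂ) (hv : v ≠ 0) :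
    ∃ a : ℂ, a ≠ 0 ∧ rp (lineOf v hv) = a • v := by
  have h := lineOf_rp (lineOf v hv)
  rw [lineOf_eq] at h
  obtain ⟨a, ha⟩ := h
  refine ⟨a, ?_, ha.symm⟩
  rintro rfl
  rw [zero_smul] at ha
  exact rp_ne _ ha.symm

/-- the set of lines given by a condition on the vectors -/
def linesOf {n : ℕ} (P : (Fin n → ℂ) → Prop) : Set (PSpace n) := {l | P (rp l)}

/-- the condition is invariant under nonzero multiples -/
def Inv {n : ℕ} (P : (Fin n → ℂ) → Prop) : Prop := ∀ (c : ℂ) (v : Fin n → ℂ), c ≠ 0 → P v → P (c • v)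

theorem mem_linesOf {n : ℕ} {P : (Fin n → ℂ) → Prop} (hP : Inv P) (v : Fin n → ℂ) (hv : v ≠ 0) :
    lineOf v hv ∈ linesOf P ↔ P v := by
  obtain ⟨a, ha, hav⟩ := rp_lineOf v hv
  show P (rp (lineOf v hv)) ↔ P v
  rw [hav]
  constructor
  · intro h
    have := hP a⁻¹ _ (inv_ne_zero ha) h
    rwa [inv_smul_smul₀ ha] at this
  · exact hP a v ha

theorem isOpen_linesOf {n : ℕ} {P : (Fin n → ℂ) → Prop} (hP : Inv P) (ho : IsOpen {v | P v}) :
    IsOpen (linesOf P) := by
  have hq : Topology.IsQuotientMap (Quotient.mk (projectivizationSetoid ℂ (Fin n → ℂ))) :=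
    isQuotientMap_quotient_mk'
  have h1 : IsOpen ((Quotient.mk (projectivizationSetoid ℂ (Fin n → ℂ))) ⁻¹' (linesOf P)) := by
    have : ((Quotient.mk (projectivizationSetoid ℂ (Fin n → ℂ))) ⁻¹' (linesOf P))
        = {v | P v.1} := by
      ext v
      exact mem_linesOf hP v.1 v.2
    rw [this]
    exact ho.preimage continuous_subtype_val
  exact hq.isOpen_preimage.1 h1

theorem isClosed_linesOf {n : ℕ} {P : (Fin n → ℂ) → Prop} (hP : Inv P) (ho : IsClosed {v | P v}) :
    IsClosed (linesOf P) := by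
  have hP' : Inv (fun v => ¬ P v) := by
    intro c v hc h1 h2
    apply h1
    have := hP c⁻¹ _ (inv_ne_zero hc) h2
    rwa [inv_smul_smul₀ hc] at this
  have h1 := isOpen_linesOf hP' (by
    have : {v | ¬ P v} = {v | P v}ᶜ := rfl
    rw [this]
    exact ho.isOpen_compl)
  have h2 : linesOf P = (linesOf fun v => ¬ P v)ᶜ := by
    ext l
    simp [linesOf]
  rw [h2]
  exact h1.isClosed_compl

/-- quotients of coordinates are continuous -/
theorem ratio_cont {n : ℕ} (j k : Fin n) :
    ContinuousOn (fun l : PSpace n => rp l k / rp l j) (linesOf fun v => v j ≠ 0) := by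
  have hinv : Inv (fun v : Fin n → ℂ => v j ≠ 0) := by
    intro c v hc h
    exact mul_ne_zero hc h
  have hopen : IsOpen {v : Fin n → ℂ | v j ≠ 0} :=
    isOpen_ne_fun (continuous_apply j) continuous_const
  rw [continuousOn_open_iff (isOpen_linesOf hinv hopen)]
  intro t ht
  have h1 : (linesOf fun v => v j ≠ 0) ∩ (fun l : PSpace n => rp l k / rp l j) ⁻¹' t
      = linesOf (fun v => v j ≠ 0 ∧ v k / v j ∈ t) := rfl
  rw [h1]
  refine isOpen_linesOf ?_ ?_
  · intro c v hc h
    refine ⟨mul_ne_zero hc h.1, ?_⟩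
    show (c * v k) / (c * v j) ∈ t
    rw [mul_div_mul_left _ _ hc]
    exact h.2
  · have h2 : ContinuousOn (fun v : Fin n → ℂ => v k / v j) {v | v j ≠ 0} :=
      ContinuousOn.div (continuous_apply k).continuousOn (continuous_apply j).continuousOn
        fun v hv => hv
    exact (continuousOn_open_iff hopen).1 h2 t ht

/-- two lines with the same quotients of coordinates are equal -/
theorem ratio_inj {n : ℕ} (j : Fin n) {l l' : PSpace n} (h : rp l j ≠ 0) (h' : rp l' j ≠ 0)
    (hk : ∀ k, rp l k / rp l j = rp l' k / rp l' j) : l = l' := by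
  rw [← lineOf_rp l, ← lineOf_rp l', lineOf_eq]
  refine ⟨rp l j / rp l' j, ?_⟩
  funext k
  show rp l j / rp l' j * rp l' k = rp l k
  have h1 := hk k
  field_simp at h1 ⊢
  linear_combination -h1

end Pool.Agent.KS6_33.ZB
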