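import Pool.Agent.KS6_33.ZB.C

/-!
The two exceptional varieties are not homeomorphic.
-/

set_option autoImplicit false

namespace Pool.Agent.KS6_33.ZB

open Filter Topology

/-- a limit of a path, in a set of lines -/
theorem mem_closure_of_path {n : ℕ} {E : Set (PSpace n)} {A : Set E} (p : E) (u : ℂ → Fin n → ℂ)
    (hu : Tendsto u (𝓝[≠] 0) (𝓝 (rp p.1)))
    (h : ∀ᶠ σ in 𝓝[≠] (0 : ℂ), ∀ hσ : u σ ≠ 0, ∃ hm : lineOf (u σ) hσ ∈ E, (⟨_, hm⟩ : E) ∈ A) :
    p ∈ closure A := by
  rw [closure_subtype]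
  have h1 := mem_of_limit (S := closure (Subtype.val '' A)) isClosed_closure (rp p.1) (rp_ne _) u hu (by
    filter_upwards [h] with σ h2 h3
    obtain ⟨h4, h5⟩ := h2 h3
    exact subset_closure ⟨_, h5, rfl⟩)
  rwa [lineOf_rp] at h1

/-- a parametrised set of lines is connected -/
theorem preconn_of_param {n : ℕ} {E : Set (PSpace n)} {A : Set E} {T : Type*} [TopologicalSpace T]
    [PreconnectedSpace T] (u : T → Fin n → ℂ) (hu : Continuous u) (hne : ∀ t, u t ≠ 0)
    (hE : ∀ t, lineOf (u t) (hne t) ∈ E) (hA : ∀ t, (⟨_, hE t⟩ : E) ∈ A)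
    (hs : ∀ p ∈ A, ∃ t, lineOf (u t) (hne t) = p.1) : IsPreconnected A := by
  have hc : Continuous (fun t => (⟨lineOf (u t) (hne t), hE t⟩ : E)) :=
    Continuous.subtype_mk (lineOf_cont.comp (Continuous.subtype_mk hu hne)) _
  have h1 : A = Set.range (fun t => (⟨lineOf (u t) (hne t), hE t⟩ : E)) := by
    ext p
    constructor
    · intro hp
      obtain ⟨t, ht⟩ := hs p hp
      exact ⟨t, Subtype.ext ht⟩
    · rintro ⟨t, rfl⟩
      exact hA t
  rw [h1]
  exact isPreconnected_range hc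

def S0 (m : ℕ) : Set (PSpace (m + 3)) := linesOf fun v => v 0 * v 1 * v 2 = 0

def S1 (m : ℕ) : Set (PSpace (m + 3)) := linesOf fun v => v 1 * v 2 * (v 0 * v 2 + v 1 ^ 2) = 0

theorem inv0 {m : ℕ} : Inv (fun v : Fin (m + 3) → ℂ => v 0 * v 1 * v 2 = 0) := by
  intro c v _ h
  show (c * v 0) * (c * v 1) * (c * v 2) = 0
  linear_combination c ^ 3 * h

theorem inv1 {m : ℕ} :
    Inv (fun v : Fin (m + 3) → ℂ => v 1 * v 2 * (v 0 * v 2 + v 1 ^ 2) = 0) := by
  intro c v _ h
  show (c * v 1) * (c * v 2) * ((c * v 0) * (c * v 2) + (c * v 1) ^ 2) = 0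
  linear_combination c ^ 4 * h

theorem inv_zero {n : ℕ} (i : Fin n) : Inv (fun v : Fin n → ℂ => v i = 0) := by
  intro c v _ h
  show c * v i = 0
  rw [h, mul_zero]

theorem exc_eq0 (m : ℕ) : excVariety (zeroSet (f₀ m)) = S0 m := by
  ext l
  rw [← lineOf_rp l, exc_zero]
  exact (mem_linesOf inv0 _ _).symm

theorem exc_eq1 (m : ℕ) : excVariety (zeroSet (f₁ m)) = S1 m := by
  ext l
  rw [← lineOf_rp l, exc_one]
  exact (mem_linesOf inv1 _ _).symm

/-! ### the union of three hyperplanes -/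

def idx {m : ℕ} : Fin 3 → Fin (m + 3) := ![0, 1, 2]

theorem idx_inj {m : ℕ} {a b : Fin 3} (h : idx (m := m) a = idx b) : a = b := by
  fin_cases a <;> fin_cases b <;>
    first
    | rfl
    | exact absurd h h01
    | exact absurd h h02
    | exact absurd h h12
    | exact absurd h h10
    | exact absurd h h20
    | exact absurd h h21

theorem prod_idx {m : ℕ} (v : Fin (m + 3) → ℂ) : v 0 * v 1 * v 2 = 0 ↔ ∃ a, v (idx a) = 0 := by
  constructor
  · intro h
    rcases mul_eq_zero.1 h with h1 | h1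
    · rcases mul_eq_zero.1 h1 with h2 | h2
      · exact ⟨0, h2⟩
      · exact ⟨1, h2⟩
    · exact ⟨2, h1⟩
  · rintro ⟨a, ha⟩
    fin_cases a
    · have : v 0 = 0 := ha
      rw [this]; ring
    · have : v 1 = 0 := ha
      rw [this]; ring
    · have : v 2 = 0 := ha
      rw [this]; ring

theorem mem_S0 {m : ℕ} (v : Fin (m + 3) → ℂ) (hv : v ≠ 0) :
    lineOf v hv ∈ S0 m ↔ v 0 * v 1 * v 2 = 0 := mem_linesOf inv0 v hv

theorem mem_S1 {m : ℕ} (v : Fin (m + 3) → ℂ) (hv : v ≠ 0) :
    lineOf v hv ∈ S1 m ↔ v 1 * v 2 * (v 0 * v 2 + v 1 ^ 2) = 0 := mem_linesOf inv1 v hv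

def H0 (m : ℕ) (a : Fin 3) : Set (S0 m) := {p | rp p.1 (idx a) = 0}

theorem H0_closed (m : ℕ) (a : Fin 3) : IsClosed (H0 m a) := by
  have h : IsClosed (linesOf fun v : Fin (m + 3) → ℂ => v (idx a) = 0) :=
    isClosed_linesOf (inv_zero _) (isClosed_eq (continuous_apply _) continuous_const)
  exact h.preimage continuous_subtype_val

theorem H0_cover (m : ℕ) (y : S0 m) : ∃ a, y ∈ H0 m a := (prod_idx _).1 y.2

/-- the coordinate points -/
noncomputable def cpt {m : ℕ} (c : Fin 3) : Fin (m + 3) → ℂ := fun i => if i = idx c then 1 else 0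

theorem cpt_ne {m : ℕ} (c : Fin 3) : cpt (m := m) c ≠ 0 := by
  intro h
  have := congrFun h (idx c)
  simp [cpt] at this

theorem mem_H0 {m : ℕ} (v : Fin (m + 3) → ℂ) (hv : v ≠ 0) (h : lineOf v hv ∈ S0 m) (a : Fin 3) :
    (⟨lineOf v hv, h⟩ : S0 m) ∈ H0 m a ↔ v (idx a) = 0 :=
  mem_linesOf (inv_zero (idx a)) v hv

theorem H0_points (m : ℕ) (c : Fin 3) : ∃ e : S0 m, e ∉ H0 m c ∧
    ∀ a, a ≠ c → e ∈ closure {y : S0 m | ∀ b, b ≠ a → y ∉ H0 m b} := by
  have hmem : lineOf (cpt (m := m) c) (cpt_ne c) ∈ S0 m := by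
    refine (mem_S0 _ _).2 ((prod_idx _).2 ⟨c + 1, ?_⟩)
    unfold cpt
    rw [if_neg]
    intro h
    have := idx_inj h
    revert this
    fin_cases c <;> decide
  refine ⟨⟨lineOf (cpt c) (cpt_ne c), hmem⟩, ?_, ?_⟩
  · rw [mem_H0]
    simp [cpt]
  · intro a hac
    obtain ⟨k, hk, hkv⟩ := rp_lineOf (cpt (m := m) c) (cpt_ne c)
    refine mem_closure_of_path _
      (fun σ => k • (fun i => if i = idx a then 0 else if i = idx c then 1 else σ)) ?_ ?_
    · have hc' : Continuous (fun σ : ℂ => fun i : Fin (m + 3) =>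
          if i = idx a then (0 : ℂ) else if i = idx c then 1 else σ) := by
        refine continuous_pi fun i => ?_
        by_cases h1 : i = idx a
        · simp only [h1, if_true]
          exact continuous_const
        · by_cases h2 : i = idx c
          · simp only [h1, h2, if_true, if_false]
            split_ifs
            · exact continuous_const
            · exact continuous_const
          · simp only [h1, h2, if_false]
            exact continuous_id
      have hc : Continuous (fun σ : ℂ => k • (fun i : Fin (m + 3) =>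
          if i = idx a then (0 : ℂ) else if i = idx c then 1 else σ)) := hc'.const_smul k
      have h1 := hc.tendsto 0
      have h2 : (k • (fun i : Fin (m + 3) =>
          if i = idx a then (0 : ℂ) else if i = idx c then 1 else 0))
          = rp (lineOf (cpt (m := m) c) (cpt_ne c)) := by
        rw [hkv]
        congr 1
        funext i
        unfold cpt
        by_cases h3 : i = idx a
        · have h4 : i ≠ idx c := fun h => hac (idx_inj (h3.symm.trans h))
          rw [if_pos h3, if_neg h4]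
        · rw [if_neg h3]
      rw [h2] at h1
      exact h1.mono_left nhdsWithin_le_nhds
    · filter_upwards [self_mem_nhdsWithin] with σ hσ hne
      refine ⟨?_, ?_⟩
      · refine (mem_S0 _ _).2 ((prod_idx _).2 ⟨a, ?_⟩)
        simp
      · intro b hb
        rw [mem_H0]
        have h1 : idx (m := m) b ≠ idx a := fun h => hb (idx_inj h)
        simp only [Pi.smul_apply, smul_eq_mul, if_neg h1]
        split_ifs
        · simpa using hk
        · exact mul_ne_zero hk hσ

/-- points in two of the hyperplanes have no local injection into `ℂ^(m+1)` -/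
theorem H0_cross (m : ℕ) (p : S0 m) (a b : Fin 3) (hab : a ≠ b) (ha : p ∈ H0 m a)
    (hb : p ∈ H0 m b) : ¬ LocInj (Fin (m + 1) → ℂ) p := by
  rintro ⟨U, hU, g, hg, hi⟩
  set q := rp p.1 with hq
  have hqa : q (idx a) = 0 := ha
  have hqb : q (idx b) = 0 := hb
  have hiab : idx (m := m) a ≠ idx b := fun h => hab (idx_inj h)
  obtain ⟨j, hj⟩ : ∃ j, q j ≠ 0 := by
    by_contra h
    push Not at h
    exact rp_ne p.1 (funext h)
  have hja : j ≠ idx a := by
    rintro rfl
    exact hj hqa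
  obtain ⟨j', hj'⟩ := Fin.exists_succAbove_eq hja
  let u : (Fin (m + 1) → ℂ) → (Fin (m + 3) → ℂ) := fun t =>
    Fin.insertNth (α := fun _ => ℂ) (idx a) (0 : ℂ) (Fin.insertNth (α := fun _ => ℂ) j' (q j)
      (fun k => q ((idx a).succAbove (j'.succAbove k)) + t k))
  have hua : ∀ t, u t (idx a) = 0 := fun t => Fin.insertNth_apply_same _ _ _
  have huj : ∀ t, u t j = q j := by
    intro t
    simp only [u]
    rw [← hj', Fin.insertNth_apply_succAbove, Fin.insertNth_apply_same]
  have huk : ∀ t k, u t ((idx a).succAbove (j'.succAbove k))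
      = q ((idx a).succAbove (j'.succAbove k)) + t k := by
    intro t k
    simp only [u]
    rw [Fin.insertNth_apply_succAbove, Fin.insertNth_apply_succAbove]
  have hu0 : u 0 = q := by
    funext i
    refine Fin.succAboveCases (idx a) ?_ (fun i' => ?_) i
    · rw [hua, hqa]
    · refine Fin.succAboveCases j' ?_ (fun k => ?_) i'
      · rw [hj', huj]
      · rw [huk]
        simp
  have huc : Continuous u := by
    refine Continuous.finInsertNth (idx a) continuous_const
      (Continuous.finInsertNth j' continuous_const ?_)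
    exact continuous_pi fun k => continuous_const.add (continuous_apply k)
  have hune : ∀ t, u t ≠ 0 := by
    intro t h
    have := congrFun h j
    rw [huj] at this
    exact hj this
  have huE : ∀ t, lineOf (u t) (hune t) ∈ S0 m := fun t =>
    (mem_S0 _ _).2 ((prod_idx _).2 ⟨a, hua t⟩)
  let ψ : (Fin (m + 1) → ℂ) → S0 m := fun t => ⟨lineOf (u t) (hune t), huE t⟩
  have hψc : Continuous ψ :=
    Continuous.subtype_mk (lineOf_cont.comp (Continuous.subtype_mk huc hune)) _
  have hψ0 : ψ 0 = p := by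
    apply Subtype.ext
    show lineOf (u 0) (hune 0) = p.1
    rw [← lineOf_rp p.1, lineOf_eq]
    exact ⟨1, by rw [one_smul, hu0]⟩
  have hψa : ∀ t, ψ t ∈ H0 m a := fun t => (mem_H0 _ _ _ _).2 (hua t)
  have hψi : Function.Injective ψ := by
    intro t t' htt
    have h1 : lineOf (u t) (hune t) = lineOf (u t') (hune t') := congrArg Subtype.val htt
    rw [lineOf_eq] at h1
    obtain ⟨c, hc⟩ := h1
    have h2 := congrFun hc j
    simp only [Pi.smul_apply, smul_eq_mul] at h2
    rw [huj, huj] at h2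
    have hc1 : c = 1 := mul_right_cancel₀ hj (by rw [h2, one_mul])
    rw [hc1, one_smul] at hc
    funext k
    have h3 := congrFun hc ((idx a).succAbove (j'.succAbove k))
    rw [huk, huk] at h3
    exact (add_left_cancel h3).symm
  -- the open set
  have hO : IsOpen (ψ ⁻¹' interior U) := isOpen_interior.preimage hψc
  have h0O : (0 : Fin (m + 1) → ℂ) ∈ ψ ⁻¹' interior U := by
    show ψ 0 ∈ interior U
    rw [hψ0]
    exact mem_interior_iff_mem_nhds.2 hU
  have hsub : ∀ t ∈ ψ ⁻¹' interior U, ψ t ∈ U := fun t ht => interior_subset ht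
  have h1 := iod (E := Fin (m + 1) → ℂ) hO (f := g ∘ ψ) (hg.comp hψc.continuousOn hsub)
    (fun t ht t' ht' h => hψi (hi (hsub t ht) (hsub t' ht') h)) h0O
  have h2 : (g ∘ ψ) 0 = g p := by
    show g (ψ 0) = g p
    rw [hψ0]
  rw [h2] at h1
  have h3 : g ⁻¹' ((g ∘ ψ) '' (ψ ⁻¹' interior U)) ∩ U ∈ 𝓝 p :=
    inter_mem ((hg.continuousAt hU).preimage_mem_nhds h1) hU
  have h4 : p ∈ closure {y : S0 m | y ∉ H0 m a} := by
    refine mem_closure_of_path p (fun σ => Function.update q (idx a) σ) ?_ ?_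
    · have hc : Continuous (fun σ : ℂ => Function.update q (idx a) σ) :=
        continuous_const.update _ continuous_id
      have h5 := hc.tendsto 0
      have h6 : Function.update q (idx a) 0 = q := by
        rw [← hqa]
        exact Function.update_eq_self _ _
      rw [h6] at h5
      exact h5.mono_left nhdsWithin_le_nhds
    · filter_upwards [self_mem_nhdsWithin] with σ hσ hne
      refine ⟨(mem_S0 _ _).2 ((prod_idx _).2 ⟨b, ?_⟩), ?_⟩
      · rw [Function.update_of_ne hiab.symm, hqb]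
      · show ¬ _
        rw [mem_H0, Function.update_self]
        exact hσ
  obtain ⟨y, hy1, hy2⟩ := mem_closure_iff_nhds.1 h4 _ h3
  obtain ⟨⟨t, ht, hty⟩, hyU⟩ := hy1
  have h5 : ψ t = y := hi (hsub t ht) hyU hty
  apply hy2
  rw [← h5]
  exact hψa t

/-! ### the union of two hyperplanes and a quadric -/

theorem inv_ne {n : ℕ} (i : Fin n) : Inv (fun v : Fin n → ℂ => v i ≠ 0) := by
  intro c v hc h
  exact mul_ne_zero hc h

theorem Inv.and {n : ℕ} {P Q : (Fin n → ℂ) → Prop} (hP : Inv P) (hQ : Inv Q) :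
    Inv (fun v => P v ∧ Q v) := fun c v hc h => ⟨hP c v hc h.1, hQ c v hc h.2⟩

theorem inv_q0 {m : ℕ} : Inv (fun v : Fin (m + 3) → ℂ => v 0 * v 2 + v 1 ^ 2 = 0) := by
  intro c v _ h
  show (c * v 0) * (c * v 2) + (c * v 1) ^ 2 = 0
  linear_combination c ^ 2 * h

theorem inv_q {m : ℕ} : Inv (fun v : Fin (m + 3) → ℂ => v 0 * v 2 + v 1 ^ 2 ≠ 0) := by
  intro c v hc h h1
  apply h
  have h2 : c ^ 2 * (v 0 * v 2 + v 1 ^ 2) = 0 := by
    have : (c * v 0) * (c * v 2) + (c * v 1) ^ 2 = 0 := h1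
    linear_combination this
  exact (mul_eq_zero.1 h2).resolve_left (pow_ne_zero 2 hc)

theorem open_ne {n : ℕ} (i : Fin n) : IsOpen {v : Fin n → ℂ | v i ≠ 0} :=
  isOpen_ne_fun (continuous_apply i) continuous_const

theorem open_q {m : ℕ} : IsOpen {v : Fin (m + 3) → ℂ | v 0 * v 2 + v 1 ^ 2 ≠ 0} :=
  isOpen_ne_fun (by fun_prop) continuous_const

/-- the three connected sets -/
def P0 {m : ℕ} (v : Fin (m + 3) → ℂ) : Prop := v 2 = 0 ∧ v 1 ≠ 0
def P1 {m : ℕ} (v : Fin (m + 3) → ℂ) : Prop := v 1 = 0 ∧ v 0 ≠ 0 ∧ v 2 ≠ 0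
def P2 {m : ℕ} (v : Fin (m + 3) → ℂ) : Prop := v 0 * v 2 + v 1 ^ 2 = 0 ∧ v 1 ≠ 0

theorem invP0 {m : ℕ} : Inv (P0 (m := m)) := (inv_zero 2).and (inv_ne 1)
theorem invP1 {m : ℕ} : Inv (P1 (m := m)) := (inv_zero 1).and ((inv_ne 0).and (inv_ne 2))
theorem invP2 {m : ℕ} : Inv (P2 (m := m)) := inv_q0.and (inv_ne 1)

def C1 (m : ℕ) : Fin 3 → Set (S1 m) :=
  ![{p | P0 (rp p.1)}, {p | P1 (rp p.1)}, {p | P2 (rp p.1)}]

theorem mem_C {m : ℕ} {P : (Fin (m + 3) → ℂ) → Prop} (hP : Inv P) (v : Fin (m + 3) → ℂ)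
    (hv : v ≠ 0) (h : lineOf v hv ∈ S1 m) :
    (⟨lineOf v hv, h⟩ : S1 m) ∈ {p : S1 m | P (rp p.1)} ↔ P v :=
  mem_linesOf hP v hv

theorem pre_ne_zero : PreconnectedSpace {z : ℂ // z ≠ 0} := by
  have h : IsConnected ({0}ᶜ : Set ℂ) :=
    isConnected_compl_singleton_of_one_lt_rank (by rw [Complex.rank_real_complex]; norm_num) 0
  exact Subtype.preconnectedSpace h.isPreconnected

theorem scale_line {n : ℕ} (l : PSpace n) (c : ℂ) (hc : c ≠ 0) (h : c • rp l ≠ 0) :
    lineOf (c • rp l) h = l := by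
  conv_rhs => rw [← lineOf_rp l]
  rw [lineOf_eq]
  exact ⟨c, rfl⟩

theorem lineOf_congr {n : ℕ} {v w : Fin n → ℂ} (hv : v ≠ 0) (hw : w ≠ 0) (h : v = w) :
    lineOf v hv = lineOf w hw := by
  subst h
  rfl

theorem C1_pre (m : ℕ) (i : Fin 3) : IsPreconnected (C1 m i) := by
  haveI := pre_ne_zero
  fin_cases i
  · -- `z = 0`, `y ≠ 0`
    let u : (Fin (m + 3) → ℂ) → (Fin (m + 3) → ℂ) := fun v =>
      Function.update (Function.update v 2 0) 1 1
    have hu1 : ∀ v, u v 1 = 1 := fun v => Function.update_self _ _ _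
    have hu2 : ∀ v, u v 2 = 0 := fun v => by
      simp only [u]
      rw [Function.update_of_ne h21, Function.update_self]
    have hne : ∀ v, u v ≠ 0 := by
      intro v h
      have := congrFun h 1
      rw [hu1] at this
      exact one_ne_zero this
    refine preconn_of_param u ?_ hne ?_ ?_ ?_
    · exact (continuous_id.update 2 continuous_const).update 1 continuous_const
    · intro v
      rw [mem_S1, hu2]
      ring
    · intro v
      refine (mem_C invP0 _ _ _).2 ⟨hu2 v, ?_⟩
      rw [hu1]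
      exact one_ne_zero
    · intro p hp
      have h1 : rp p.1 2 = 0 ∧ rp p.1 1 ≠ 0 := hp
      have hs : (rp p.1 1)⁻¹ ≠ 0 := inv_ne_zero h1.2
      have h2 : u ((rp p.1 1)⁻¹ • rp p.1) = (rp p.1 1)⁻¹ • rp p.1 := by
        simp only [u]
        have e1 : Function.update ((rp p.1 1)⁻¹ • rp p.1) 2 0 = (rp p.1 1)⁻¹ • rp p.1 := by
          rw [Function.update_eq_iff]
          exact ⟨by simp [h1.1], fun _ _ => rfl⟩
        rw [e1, Function.update_eq_iff]
        refine ⟨?_, fun _ _ => rfl⟩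
        simp [h1.2]
      refine ⟨(rp p.1 1)⁻¹ • rp p.1, ?_⟩
      rw [lineOf_congr (hne _) (smul_ne_zero hs (rp_ne _)) h2]
      exact scale_line _ _ hs _
  · -- `y = 0`, `x z ≠ 0`
    let u : {z : ℂ // z ≠ 0} × (Fin (m + 3) → ℂ) → (Fin (m + 3) → ℂ) := fun t =>
      Function.update (Function.update (Function.update t.2 0 1) 1 0) 2 t.1.1
    have hu0 : ∀ t, u t 0 = 1 := fun v => by
      simp only [u]
      rw [Function.update_of_ne h02, Function.update_of_ne h01, Function.update_self]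
    have hu1 : ∀ t, u t 1 = 0 := fun v => by
      simp only [u]
      rw [Function.update_of_ne h12, Function.update_self]
    have hu2 : ∀ t, u t 2 = t.1.1 := fun v => Function.update_self _ _ _
    have hne : ∀ v, u v ≠ 0 := by
      intro v h
      have := congrFun h 0
      rw [hu0] at this
      exact one_ne_zero this
    refine preconn_of_param u ?_ hne ?_ ?_ ?_
    · exact ((continuous_snd.update 0 continuous_const).update 1 continuous_const).update 2
        (continuous_subtype_val.comp continuous_fst)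
    · intro v
      rw [mem_S1, hu1]
      ring
    · intro v
      refine (mem_C invP1 _ _ _).2 ⟨hu1 v, ?_, ?_⟩
      · rw [hu0]
        exact one_ne_zero
      · rw [hu2]
        exact v.1.2
    · intro p hp
      have h1 : rp p.1 1 = 0 ∧ rp p.1 0 ≠ 0 ∧ rp p.1 2 ≠ 0 := hp
      have hs : (rp p.1 0)⁻¹ ≠ 0 := inv_ne_zero h1.2.1
      refine ⟨(⟨(rp p.1 0)⁻¹ * rp p.1 2, mul_ne_zero hs h1.2.2⟩, (rp p.1 0)⁻¹ • rp p.1), ?_⟩
      have h2 : u (⟨(rp p.1 0)⁻¹ * rp p.1 2, mul_ne_zero hs h1.2.2⟩, (rp p.1 0)⁻¹ • rp p.1)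
          = (rp p.1 0)⁻¹ • rp p.1 := by
        simp only [u]
        have e1 : Function.update ((rp p.1 0)⁻¹ • rp p.1) 0 1 = (rp p.1 0)⁻¹ • rp p.1 := by
          rw [Function.update_eq_iff]
          exact ⟨by simp [h1.2.1], fun _ _ => rfl⟩
        have e2 : Function.update ((rp p.1 0)⁻¹ • rp p.1) 1 0 = (rp p.1 0)⁻¹ • rp p.1 := by
          rw [Function.update_eq_iff]
          exact ⟨by simp [h1.1], fun _ _ => rfl⟩
        rw [e1, e2, Function.update_eq_iff]
        exact ⟨rfl, fun _ _ => rfl⟩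
      rw [lineOf_congr (hne _) (smul_ne_zero hs (rp_ne _)) h2]
      exact scale_line _ _ hs _
  · -- the quadric
    let u : {z : ℂ // z ≠ 0} × (Fin (m + 3) → ℂ) → (Fin (m + 3) → ℂ) := fun t =>
      Function.update (Function.update (Function.update t.2 0 (-(t.1.1)⁻¹)) 1 1) 2 t.1.1
    have hu0 : ∀ t, u t 0 = -(t.1.1)⁻¹ := fun v => by
      simp only [u]
      rw [Function.update_of_ne h02, Function.update_of_ne h01, Function.update_self]
    have hu1 : ∀ t, u t 1 = 1 := fun v => by
      simp only [u]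
      rw [Function.update_of_ne h12, Function.update_self]
    have hu2 : ∀ t, u t 2 = t.1.1 := fun v => Function.update_self _ _ _
    have hne : ∀ v, u v ≠ 0 := by
      intro v h
      have := congrFun h 1
      rw [hu1] at this
      exact one_ne_zero this
    have hq : ∀ t, u t 0 * u t 2 + u t 1 ^ 2 = 0 := by
      intro t
      rw [hu0, hu1, hu2]
      have := t.1.2
      field_simp
      ring
    refine preconn_of_param u ?_ hne ?_ ?_ ?_
    · refine ((continuous_snd.update 0 ?_).update 1 continuous_const).update 2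
        (continuous_subtype_val.comp continuous_fst)
      exact ((continuous_subtype_val.comp continuous_fst).inv₀ fun t => t.1.2).neg
    · intro v
      rw [mem_S1, hq, mul_zero]
    · intro v
      refine (mem_C invP2 _ _ _).2 ⟨hq v, ?_⟩
      rw [hu1]
      exact one_ne_zero
    · intro p hp
      have h1 : rp p.1 0 * rp p.1 2 + rp p.1 1 ^ 2 = 0 ∧ rp p.1 1 ≠ 0 := hp
      have hs : (rp p.1 1)⁻¹ ≠ 0 := inv_ne_zero h1.2
      have h3 : rp p.1 2 ≠ 0 := by
        intro h4
        have h5 := h1.1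
        rw [h4, mul_zero, zero_add] at h5
        exact h1.2 (pow_eq_zero_iff two_ne_zero |>.1 h5)
      refine ⟨(⟨(rp p.1 1)⁻¹ * rp p.1 2, mul_ne_zero hs h3⟩, (rp p.1 1)⁻¹ • rp p.1), ?_⟩
      have h2 : u (⟨(rp p.1 1)⁻¹ * rp p.1 2, mul_ne_zero hs h3⟩, (rp p.1 1)⁻¹ • rp p.1)
          = (rp p.1 1)⁻¹ • rp p.1 := by
        simp only [u]
        have e1 : Function.update ((rp p.1 1)⁻¹ • rp p.1) 0 (-((rp p.1 1)⁻¹ * rp p.1 2)⁻¹)
            = (rp p.1 1)⁻¹ • rp p.1 := by
          rw [Function.update_eq_iff]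
          refine ⟨?_, fun _ _ => rfl⟩
          simp only [Pi.smul_apply, smul_eq_mul]
          have h4 := h1.2
          have h5 := h1.1
          field_simp
          linear_combination -h5
        have e2 : Function.update ((rp p.1 1)⁻¹ • rp p.1) 1 1 = (rp p.1 1)⁻¹ • rp p.1 := by
          rw [Function.update_eq_iff]
          exact ⟨by simp [h1.2], fun _ _ => rfl⟩
        rw [e1, e2, Function.update_eq_iff]
        exact ⟨rfl, fun _ _ => rfl⟩
      rw [lineOf_congr (hne _) (smul_ne_zero hs (rp_ne _)) h2]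
      exact scale_line _ _ hs _

end Pool.Agent.KS6_33.ZB
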