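import Mathlib

/-!
Definitions for MP_f1850b_ag: blow-ups of points, exceptional varieties, topological equisingularity.
-/

set_option autoImplicit false

namespace Pool.Agent.KS6_33.ZB

/-- Complex projective space `P^(n-1)` of lines through the origin of `C^n`. -/
def PSpace (n : ℕ) : Type := Projectivization ℂ (Fin n → ℂ)

/-- It carries the quotient topology from `C^n \ {0}`. -/
noncomputable instance (n : ℕ) : TopologicalSpace (PSpace n) :=
  inferInstanceAs (TopologicalSpace (Quotient (projectivizationSetoid ℂ (Fin n → ℂ))))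

/-- The line spanned by a nonzero vector. -/
noncomputable def lineOf {n : ℕ} (v : Fin n → ℂ) (hv : v ≠ 0) : PSpace n := Projectivization.mk ℂ v hv

/-- The blow-up of `C^n` at the origin: pairs (point, line through the origin containing it). -/
def BlowUp (n : ℕ) : Type :=
  {p : (Fin n → ℂ) × PSpace n // p.1 ∈ Projectivization.submodule (K := ℂ) (V := Fin n → ℂ) p.2}

noncomputable instance (n : ℕ) : TopologicalSpace (BlowUp n) :=
  inferInstanceAs (TopologicalSpace
    {p : (Fin n → ℂ) × PSpace n // p.1 ∈ Projectivization.submodule (K := ℂ) (V := Fin n → ℂ) p.2})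

/-- The blow-down map `T`. -/
def BlowUp.T {n : ℕ} (p : BlowUp n) : Fin n → ℂ := p.1.1

/-- The point of the exceptional divisor `T⁻¹(0)` given by a line. -/
def excPoint {n : ℕ} (l : PSpace n) : BlowUp n := ⟨(0, l), Submodule.zero_mem _⟩

/-- The proper transform of `V`: the closure of `T⁻¹(V \ {0})`. -/
def properTransform {n : ℕ} (V : Set (Fin n → ℂ)) : Set (BlowUp n) :=
  closure {p | p.T ∈ V ∧ p.T ≠ 0}

/-- The exceptional variety of `V`: the intersection of the proper transform with the exceptional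
divisor `T⁻¹(0) = P^(n-1)`. -/
def excVariety {n : ℕ} (V : Set (Fin n → ℂ)) : Set (PSpace n) :=
  {l | excPoint l ∈ properTransform V}

/-- The germs `(V, P)` and `(V', P')` are topologically equisingular: a homeomorphism from an open
neighbourhood of `P` onto an open neighbourhood of `P'` carries `P` to `P'` and `V` onto `V'`. -/
def TopEquisingular {X X' : Type} [TopologicalSpace X] [TopologicalSpace X']
    (V : Set X) (P : X) (V' : Set X') (P' : X') : Prop :=
  ∃ h : OpenPartialHomeomorph X X', P ∈ h.source ∧ h P = P' ∧ h '' (V ∩ h.source) = V' ∩ h.target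

/-- `(V, 0)` is a hypersurface germ of `C^n`: near `0` the set `V` is the zero set of a convergent
power series `f` that is not identically zero near `0` and has `f 0 = 0`. -/
def IsHypersurfaceGerm {n : ℕ} (V : Set (Fin n → ℂ)) : Prop :=
  ∃ f : (Fin n → ℂ) → ℂ, AnalyticAt ℂ f 0 ∧ f 0 = 0 ∧ (¬ ∀ᶠ v in nhds 0, f v = 0) ∧
    ∀ᶠ v in nhds 0, (v ∈ V ↔ f v = 0)

/-- The germ `(V, 0)` in `C^n` is irreducible: if a product `g h` of two convergent power series
vanishes on `V` near `0`, then `g` or `h` vanishes on `V` near `0`. (In other words, the germ is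
not the union of two smaller analytic germs.) -/
def IsIrreducibleGerm {n : ℕ} (V : Set (Fin n → ℂ)) : Prop :=
  ∀ g h : (Fin n → ℂ) → ℂ, AnalyticAt ℂ g 0 → AnalyticAt ℂ h 0 →
    (∀ᶠ v in nhds 0, v ∈ V → g v * h v = 0) →
    (∀ᶠ v in nhds 0, v ∈ V → g v = 0) ∨ (∀ᶠ v in nhds 0, v ∈ V → h v = 0)

/-- The zero set of a polynomial in `C^n`. -/
def zeroSet {n : ℕ} (f : MvPolynomial (Fin n) ℂ) : Set (Fin n → ℂ) :=
  {v | MvPolynomial.eval v f = 0}

/-- `f₀ = y (z³ x + y⁵) + z⁶`, in `m + 3` variables, of which `x, y, z` are the variables number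
`0, 1, 2`; the other `m` variables do not occur. -/
noncomputable def f₀ (m : ℕ) : MvPolynomial (Fin (m + 3)) ℂ :=
  MvPolynomial.X 1 * (MvPolynomial.X 2 ^ 3 * MvPolynomial.X 0 + MvPolynomial.X 1 ^ 5)
    + MvPolynomial.X 2 ^ 6

/-- `f₁ = y (z³ x + y⁵ + z² y²) + z⁶`, in `m + 3` variables. -/
noncomputable def f₁ (m : ℕ) : MvPolynomial (Fin (m + 3)) ℂ :=
  MvPolynomial.X 1 * (MvPolynomial.X 2 ^ 3 * MvPolynomial.X 0 + MvPolynomial.X 1 ^ 5
    + MvPolynomial.X 2 ^ 2 * MvPolynomial.X 1 ^ 2) + MvPolynomial.X 2 ^ 6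

theorem mem_f₀ {m : ℕ} (v : Fin (m + 3) → ℂ) :
    v ∈ zeroSet (f₀ m) ↔ v 1 * (v 2 ^ 3 * v 0 + v 1 ^ 5) + v 2 ^ 6 = 0 := by
  simp [zeroSet, f₀]

theorem mem_f₁ {m : ℕ} (v : Fin (m + 3) → ℂ) :
    v ∈ zeroSet (f₁ m) ↔
      v 1 * (v 2 ^ 3 * v 0 + v 1 ^ 5 + v 2 ^ 2 * v 1 ^ 2) + v 2 ^ 6 = 0 := by
  simp [zeroSet, f₁]

theorem v2 {m : ℕ} : ((2 : Fin (m + 3)) : ℕ) = 2 :=
  Nat.mod_eq_of_lt (a := 2) (b := m + 3) (by omega)
theorem v1 {m : ℕ} : ((1 : Fin (m + 3)) : ℕ) = 1 :=
  Nat.mod_eq_of_lt (a := 1) (b := m + 3) (by omega)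
theorem h01 {m : ℕ} : (0 : Fin (m + 3)) ≠ 1 := by
  intro h
  have := congrArg Fin.val h
  rw [v1] at this
  simp at this
theorem h02 {m : ℕ} : (0 : Fin (m + 3)) ≠ 2 := by
  intro h
  have := congrArg Fin.val h
  rw [v2] at this
  simp at this
theorem h12 {m : ℕ} : (1 : Fin (m + 3)) ≠ 2 := by
  intro h
  have := congrArg Fin.val h
  rw [v1, v2] at this
  simp at this
theorem h10 {m : ℕ} : (1 : Fin (m + 3)) ≠ 0 := h01.symm
theorem h20 {m : ℕ} : (2 : Fin (m + 3)) ≠ 0 := h02.symm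
theorem h21 {m : ℕ} : (2 : Fin (m + 3)) ≠ 1 := h12.symm

end Pool.Agent.KS6_33.ZB
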