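import Pool.Agent.KS6_33.ZB.D

/-!
The two exceptional varieties are not homeomorphic: local injections, closures.
-/

set_option autoImplicit false

namespace Pool.Agent.KS6_33.ZB

open Filter Topology

theorem one_ne {m : ℕ} : (fun _ => 1 : Fin (m + 3) → ℂ) ≠ 0 := by
  intro h
  have := congrFun h 0
  simp at this

theorem C1_nonempty (m : ℕ) (i : Fin 3) : (C1 m i).Nonempty := by
  fin_cases i
  · have hne : Function.update (fun _ => 1 : Fin (m + 3) → ℂ) 2 0 ≠ 0 := by
      intro h
      have := congrFun h 1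
      rw [Function.update_of_ne h12] at this
      exact one_ne_zero this
    have hm : lineOf _ hne ∈ S1 m := by
      rw [mem_S1, Function.update_self]
      ring
    refine ⟨⟨_, hm⟩, (mem_C invP0 _ _ _).2 ⟨Function.update_self _ _ _, ?_⟩⟩
    rw [Function.update_of_ne h12]
    exact one_ne_zero
  · have hne : Function.update (fun _ => 1 : Fin (m + 3) → ℂ) 1 0 ≠ 0 := by
      intro h
      have := congrFun h 0
      rw [Function.update_of_ne h01] at this
      exact one_ne_zero this
    have hm : lineOf _ hne ∈ S1 m := by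
      rw [mem_S1, Function.update_self]
      ring
    refine ⟨⟨_, hm⟩, (mem_C invP1 _ _ _).2 ⟨Function.update_self _ _ _, ?_, ?_⟩⟩
    · rw [Function.update_of_ne h01]
      exact one_ne_zero
    · rw [Function.update_of_ne h21]
      exact one_ne_zero
  · have hne : Function.update (fun _ => 1 : Fin (m + 3) → ℂ) 0 (-1) ≠ 0 := by
      intro h
      have := congrFun h 1
      rw [Function.update_of_ne h10] at this
      exact one_ne_zero this
    have hm : lineOf _ hne ∈ S1 m := by
      rw [mem_S1, Function.update_self, Function.update_of_ne h10, Function.update_of_ne h20]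
      norm_num
    refine ⟨⟨_, hm⟩, (mem_C invP2 _ _ _).2 ⟨?_, ?_⟩⟩
    · rw [Function.update_self, Function.update_of_ne h10, Function.update_of_ne h20]
      norm_num
    · rw [Function.update_of_ne h10]
      exact one_ne_zero

/-- local injections from quotients of coordinates -/
theorem locInj_of {m : ℕ} (j : Fin (m + 3)) (ι : Fin (m + 1) → Fin (m + 3))
    (P : (Fin (m + 3) → ℂ) → Prop) (hP : Inv P) (hPo : IsOpen {v | P v})
    (hj : ∀ v, P v → v j ≠ 0)
    (hinj : ∀ v w : Fin (m + 3) → ℂ, P v → P w →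
      v 1 * v 2 * (v 0 * v 2 + v 1 ^ 2) = 0 → w 1 * w 2 * (w 0 * w 2 + w 1 ^ 2) = 0 →
      (∀ k, v (ι k) / v j = w (ι k) / w j) → ∀ k, v k / v j = w k / w j)
    (p : S1 m) (hp : P (rp p.1)) : LocInj (Fin (m + 1) → ℂ) p := by
  refine ⟨{q | P (rp q.1)}, ?_, fun q k => rp q.1 (ι k) / rp q.1 j, ?_, ?_⟩
  · exact ((isOpen_linesOf hP hPo).preimage continuous_subtype_val).mem_nhds hp
  · rw [continuousOn_pi]
    intro k
    exact (ratio_cont j (ι k)).comp continuous_subtype_val.continuousOn fun q hq => hj _ hq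
  · intro q hq q' hq' h
    apply Subtype.ext
    refine ratio_inj j (hj _ hq) (hj _ hq') (hinj _ _ hq hq' q.2 q'.2 fun k => congrFun h k)

/-- the enumeration of the coordinates other than `0`, `1` -/
def ι0 {m : ℕ} (k : Fin (m + 1)) : Fin (m + 3) := ⟨k.1 + 2, by omega⟩

theorem coord_cases {m : ℕ} (k : Fin (m + 3)) :
    k = 0 ∨ k = 1 ∨ ∃ k' : Fin (m + 1), k = ι0 k' := by
  by_cases h0 : k.1 = 0
  · left
    exact Fin.ext h0
  by_cases h1 : k.1 = 1
  · right; left
    apply Fin.ext
    rw [v1]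
    exact h1
  · right; right
    refine ⟨⟨k.1 - 2, by omega⟩, ?_⟩
    apply Fin.ext
    show k.1 = k.1 - 2 + 2
    omega

theorem ι0_zero {m : ℕ} : ι0 (m := m) 0 = 2 := by
  apply Fin.ext
  rw [v2]
  rfl

/-- the enumeration of the coordinates other than `1`, `2` -/
def ι1 {m : ℕ} (k : Fin (m + 1)) : Fin (m + 3) := if k.1 = 0 then 0 else ⟨k.1 + 2, by omega⟩

theorem ι1_zero {m : ℕ} : ι1 (m := m) 0 = 0 := by simp [ι1]

theorem ι1_succ {m : ℕ} (k : Fin (m + 1)) (h : k ≠ 0) : ι1 k = ι0 k := by
  unfold ι1 ι0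
  rw [if_neg]
  intro h1
  exact h (Fin.ext h1)

theorem C1_locInj (m : ℕ) (i : Fin 3) (p : S1 m) (hp : p ∈ C1 m i) :
    LocInj (Fin (m + 1) → ℂ) p := by
  have hsq : ∀ a : ℂ, a ^ 2 = 0 → a = 0 := fun a h => (pow_eq_zero_iff two_ne_zero).1 h
  fin_cases i
  · have h1 : rp p.1 2 = 0 ∧ rp p.1 1 ≠ 0 := hp
    refine locInj_of 1 ι1 (fun v => v 1 ≠ 0 ∧ v 0 * v 2 + v 1 ^ 2 ≠ 0) ((inv_ne 1).and inv_q)
      ((open_ne 1).inter open_q) (fun v hv => hv.1) ?_ p ⟨h1.2, ?_⟩
    · intro v w hv hw hv1 hw1 h k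
      have hv2 : v 2 = 0 := by
        by_contra h2
        exact mul_ne_zero (mul_ne_zero hv.1 h2) hv.2 hv1
      have hw2 : w 2 = 0 := by
        by_contra h2
        exact mul_ne_zero (mul_ne_zero hw.1 h2) hw.2 hw1
      rcases coord_cases k with rfl | rfl | ⟨k', rfl⟩
      · have := h 0
        rwa [ι1_zero] at this
      · rw [div_self hv.1, div_self hw.1]
      · by_cases hk : k' = 0
        · rw [hk, ι0_zero, hv2, hw2, zero_div, zero_div]
        · rw [← ι1_succ k' hk]
          exact h k'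
    · rw [h1.1, mul_zero, zero_add]
      exact pow_ne_zero 2 h1.2
  · have h1 : rp p.1 1 = 0 ∧ rp p.1 0 ≠ 0 ∧ rp p.1 2 ≠ 0 := hp
    refine locInj_of 0 ι0 (fun v => v 0 ≠ 0 ∧ v 2 ≠ 0 ∧ v 0 * v 2 + v 1 ^ 2 ≠ 0)
      ((inv_ne 0).and ((inv_ne 2).and inv_q)) ((open_ne 0).inter ((open_ne 2).inter open_q))
      (fun v hv => hv.1) ?_ p ⟨h1.2.1, h1.2.2, ?_⟩
    · intro v w hv hw hv1 hw1 h k
      have hv2 : v 1 = 0 := by
        by_contra h2
        exact mul_ne_zero (mul_ne_zero h2 hv.2.1) hv.2.2 hv1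
      have hw2 : w 1 = 0 := by
        by_contra h2
        exact mul_ne_zero (mul_ne_zero h2 hw.2.1) hw.2.2 hw1
      rcases coord_cases k with rfl | rfl | ⟨k', rfl⟩
      · rw [div_self hv.1, div_self hw.1]
      · rw [hv2, hw2, zero_div, zero_div]
      · exact h k'
    · rw [h1.1]
      simpa using ⟨h1.2.1, h1.2.2⟩
  · have h1 : rp p.1 0 * rp p.1 2 + rp p.1 1 ^ 2 = 0 ∧ rp p.1 1 ≠ 0 := hp
    refine locInj_of 1 ι0 (fun v => v 1 ≠ 0 ∧ v 2 ≠ 0) ((inv_ne 1).and (inv_ne 2))
      ((open_ne 1).inter (open_ne 2)) (fun v hv => hv.1) ?_ p ⟨h1.2, ?_⟩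
    · intro v w hv hw hv1 hw1 h k
      have hv2 : v 0 * v 2 + v 1 ^ 2 = 0 := by
        by_contra h2
        exact mul_ne_zero (mul_ne_zero hv.1 hv.2) h2 hv1
      have hw2 : w 0 * w 2 + w 1 ^ 2 = 0 := by
        by_contra h2
        exact mul_ne_zero (mul_ne_zero hw.1 hw.2) h2 hw1
      rcases coord_cases k with rfl | rfl | ⟨k', rfl⟩
      · have h3 := h 0
        rw [ι0_zero] at h3
        have a1 := hv.1
        have a2 := hv.2
        have b1 := hw.1
        have b2 := hw.2
        have h4 : v 0 / v 1 = -(v 2 / v 1)⁻¹ := by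
          field_simp
          linear_combination hv2
        have h5 : w 0 / w 1 = -(w 2 / w 1)⁻¹ := by
          field_simp
          linear_combination hw2
        rw [h4, h5, h3]
      · rw [div_self hv.1, div_self hw.1]
      · exact h k'
    · intro h2
      have h3 := h1.1
      rw [h2, mul_zero, zero_add] at h3
      exact h1.2 (hsq _ h3)

theorem C1_cover (m : ℕ) (p : S1 m) : ∃ i, p ∈ closure (C1 m i) := by
  have hp := p.2
  have h1 : rp p.1 1 * rp p.1 2 * (rp p.1 0 * rp p.1 2 + rp p.1 1 ^ 2) = 0 := hp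
  by_cases hy : rp p.1 1 = 0
  · refine ⟨1, ?_⟩
    refine mem_closure_of_path p (fun σ => Function.update (pert (rp p.1) 2 σ) 0 (rp p.1 0 + σ))
      ?_ ?_
    · have hc : Continuous (fun σ : ℂ => Function.update (pert (rp p.1) 2 σ) 0 (rp p.1 0 + σ)) := by
        refine Continuous.update ?_ 0 (continuous_const.add continuous_id)
        exact continuous_const.update 2 (continuous_const.add continuous_id)
      have h7 := hc.tendsto 0
      have h8 : Function.update (pert (rp p.1) 2 0) 0 (rp p.1 0 + 0) = rp p.1 := by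
        have h9 : pert (rp p.1) 2 0 = rp p.1 := by
          unfold pert
          rw [add_zero]
          exact Function.update_eq_self 2 _
        rw [h9, add_zero]
        exact Function.update_eq_self 0 _
      rw [h8] at h7
      exact h7.mono_left nhdsWithin_le_nhds
    · filter_upwards [lin_ne (rp p.1 0), lin_ne (rp p.1 2)] with σ h2 h3 hne
      have e1 : Function.update (pert (rp p.1) 2 σ) 0 (rp p.1 0 + σ) 1 = 0 := by
        rw [Function.update_of_ne h10, pert_ne _ h12, hy]
      have e0 : Function.update (pert (rp p.1) 2 σ) 0 (rp p.1 0 + σ) 0 = rp p.1 0 + σ :=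
        Function.update_self _ _ _
      have e2 : Function.update (pert (rp p.1) 2 σ) 0 (rp p.1 0 + σ) 2 = rp p.1 2 + σ := by
        rw [Function.update_of_ne h20, pert_self]
      have hm : lineOf _ hne ∈ S1 m := by
        rw [mem_S1, e1]
        ring
      refine ⟨hm, (mem_C invP1 _ _ _).2 ⟨e1, ?_, ?_⟩⟩
      · rw [e0]
        exact h2
      · rw [e2]
        exact h3
  · by_cases hz : rp p.1 2 = 0
    · exact ⟨0, subset_closure ⟨hz, hy⟩⟩
    · refine ⟨2, subset_closure ⟨?_, hy⟩⟩
      exact (mul_eq_zero.1 h1).resolve_left (mul_ne_zero hy hz)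

theorem quot_tendsto (a : ℂ) : Tendsto (fun σ : ℂ => -(σ ^ 2) / (a + σ)) (𝓝[≠] 0) (𝓝 0) := by
  by_cases ha : a = 0
  · subst ha
    have h1 : Tendsto (fun σ : ℂ => -σ) (𝓝[≠] 0) (𝓝 0) := by
      have := (continuous_neg (G := ℂ)).tendsto 0
      rw [neg_zero] at this
      exact this.mono_left nhdsWithin_le_nhds
    refine h1.congr' ?_
    filter_upwards [self_mem_nhdsWithin] with σ hσ
    have h2 : σ ≠ 0 := hσ
    rw [zero_add]
    field_simp
  · have hc : ContinuousAt (fun σ : ℂ => -(σ ^ 2) / (a + σ)) 0 :=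
      ContinuousAt.div (by fun_prop) (by fun_prop) (by simpa using ha)
    have h1 := hc.tendsto
    have h2 : -((0 : ℂ) ^ 2) / (a + 0) = 0 := by simp
    rw [h2] at h1
    exact h1.mono_left nhdsWithin_le_nhds

theorem C1_meet (m : ℕ) : closure (C1 m 0) ∩ closure (C1 m 1) ⊆ closure (C1 m 2) := by
  rintro p ⟨hp0, hp1⟩
  have h0 : rp p.1 2 = 0 := by
    have hcl : IsClosed {p : S1 m | rp p.1 2 = 0} :=
      (isClosed_linesOf (inv_zero 2)
        (isClosed_eq (continuous_apply _) continuous_const)).preimage continuous_subtype_val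
    exact closure_minimal (fun q hq => hq.1) hcl hp0
  have h1 : rp p.1 1 = 0 := by
    have hcl : IsClosed {p : S1 m | rp p.1 1 = 0} :=
      (isClosed_linesOf (inv_zero 1)
        (isClosed_eq (continuous_apply _) continuous_const)).preimage continuous_subtype_val
    exact closure_minimal (fun q hq => hq.1) hcl hp1
  refine mem_closure_of_path p (fun σ => Function.update (Function.update
    (Function.update (rp p.1) 0 (rp p.1 0 + σ)) 1 σ) 2 (-(σ ^ 2) / (rp p.1 0 + σ))) ?_ ?_
  · rw [tendsto_pi_nhds]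
    intro i
    have ht : Tendsto (fun σ : ℂ => σ) (𝓝[≠] 0) (𝓝 0) := tendsto_id.mono_left nhdsWithin_le_nhds
    by_cases hi2 : i = 2
    · subst hi2
      simp only [Function.update_self]
      rw [h0]
      exact quot_tendsto _
    by_cases hi1 : i = 1
    · subst hi1
      simp only [Function.update_of_ne h12, Function.update_self]
      rw [h1]
      exact ht
    by_cases hi0 : i = 0
    · subst hi0
      simp only [Function.update_of_ne h02, Function.update_of_ne h01, Function.update_self]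
      have := (tendsto_const_nhds (x := rp p.1 0) (f := 𝓝[≠] (0 : ℂ))).add ht
      simpa using this
    · simp only [Function.update_of_ne hi2, Function.update_of_ne hi1, Function.update_of_ne hi0]
      exact tendsto_const_nhds
  · filter_upwards [lin_ne (rp p.1 0), self_mem_nhdsWithin] with σ h2 h3 hne
    have h3' : σ ≠ 0 := h3
    set u := Function.update (Function.update
      (Function.update (rp p.1) 0 (rp p.1 0 + σ)) 1 σ) 2 (-(σ ^ 2) / (rp p.1 0 + σ)) with hu
    have e2 : u 2 = -(σ ^ 2) / (rp p.1 0 + σ) := Function.update_self _ _ _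
    have e1 : u 1 = σ := by
      rw [hu, Function.update_of_ne h12, Function.update_self]
    have e0 : u 0 = rp p.1 0 + σ := by
      rw [hu, Function.update_of_ne h02, Function.update_of_ne h01, Function.update_self]
    have hq : u 0 * u 2 + u 1 ^ 2 = 0 := by
      rw [e0, e1, e2]
      field_simp
      ring
    have hm : lineOf u hne ∈ S1 m := by
      rw [mem_S1, hq, mul_zero]
    refine ⟨hm, (mem_C invP2 _ _ _).2 ⟨hq, ?_⟩⟩
    show u 1 ≠ 0
    rw [e1]
    exact h3'

/-- the two exceptional varieties are not homeomorphic -/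
theorem no_homeo (m : ℕ) :
    IsEmpty (excVariety (zeroSet (f₀ m)) ≃ₜ excVariety (zeroSet (f₁ m))) := by
  refine ⟨fun e => ?_⟩
  have F : S1 m ≃ₜ S0 m :=
    ((Homeomorph.setCongr (exc_eq1 m)).symm.trans e.symm).trans (Homeomorph.setCongr (exc_eq0 m))
  exact abstract_no_homeo (M := Fin (m + 1) → ℂ) F (C1 m) (C1_pre m) (C1_nonempty m)
    (C1_locInj m) (C1_cover m) (C1_meet m) (H0 m) (H0_closed m) (H0_cover m)
    (fun y a b hab ha hb => H0_cross m y a b hab ha hb) (H0_points m)

end Pool.Agent.KS6_33.ZB
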