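import Pool.Agent.KS6_33.ZB.Defs

/-!
The two germs are irreducible hypersurface germs.
-/

set_option autoImplicit false

namespace Pool.Agent.KS6_33.ZB

open Filter Topology

/-- a germ with a local analytic parametrisation is irreducible -/
theorem irr_of_param {n : ℕ} {E : Type*} [NormedAddCommGroup E] [NormedSpace ℂ E]
    (V : Set (Fin n → ℂ)) (Φ : E → Fin n → ℂ) (hΦ : AnalyticAt ℂ Φ 0) (h0 : Φ 0 = 0)
    (hV : ∀ e, Φ e ∈ V) (hs : ∀ N ∈ 𝓝 (0 : E), ∀ᶠ v in 𝓝 (0 : Fin n → ℂ), v ∈ V → v ∈ Φ '' N) :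
    IsIrreducibleGerm V := by
  intro g h hg hh hgh
  have hg' : AnalyticAt ℂ (fun e => g (Φ e)) 0 := by
    refine AnalyticAt.comp (g := g) (f := Φ) ?_ hΦ
    rwa [h0]
  have hh' : AnalyticAt ℂ (fun e => h (Φ e)) 0 := by
    refine AnalyticAt.comp (g := h) (f := Φ) ?_ hΦ
    rwa [h0]
  have hc : Tendsto Φ (𝓝 0) (𝓝 0) := by
    have := hΦ.continuousAt.tendsto
    rwa [h0] at this
  have hprod : ∀ᶠ e in 𝓝 (0 : E), g (Φ e) * h (Φ e) = 0 := by
    filter_upwards [hc.eventually hgh] with e he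
    exact he (hV e)
  have key : (∀ᶠ e in 𝓝 (0 : E), g (Φ e) = 0) ∨ (∀ᶠ e in 𝓝 (0 : E), h (Φ e) = 0) := by
    by_cases hz : ∀ᶠ e in 𝓝 (0 : E), g (Φ e) = 0
    · exact Or.inl hz
    right
    obtain ⟨r, hr, hball⟩ := Metric.eventually_nhds_iff_ball.1
      (hprod.and (hg'.eventually_analyticAt.and hh'.eventually_analyticAt))
    have hex : ∃ e ∈ Metric.ball (0 : E) r, g (Φ e) ≠ 0 := by
      by_contra hne
      push Not at hne
      exact hz (Metric.eventually_nhds_iff_ball.2 ⟨r, hr, hne⟩)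
    obtain ⟨e1, he1, hge1⟩ := hex
    have hcont : ContinuousAt (fun e => g (Φ e)) e1 := ((hball e1 he1).2.1).continuousAt
    have hloc : (fun e => h (Φ e)) =ᶠ[𝓝 e1] 0 := by
      have h1 : ∀ᶠ e in 𝓝 e1, e ∈ Metric.ball (0 : E) r := Metric.isOpen_ball.mem_nhds he1
      filter_upwards [hcont.eventually_ne hge1, h1] with e h2 h3
      exact (mul_eq_zero.1 (hball e h3).1).resolve_left h2
    have han : AnalyticOnNhd ℂ (fun e => h (Φ e)) (Metric.ball (0 : E) r) :=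
      fun e he => (hball e he).2.2
    letI : NormedSpace ℝ E := NormedSpace.restrictScalars ℝ ℂ E
    have hpre : IsPreconnected (Metric.ball (0 : E) r) := (convex_ball (0 : E) r).isPreconnected
    have hzero := han.eqOn_zero_of_preconnected_of_eventuallyEq_zero hpre he1 hloc
    exact Metric.eventually_nhds_iff_ball.2 ⟨r, hr, fun e he => hzero he⟩
  rcases key with hk | hk
  · left
    filter_upwards [hs _ hk] with v hv hvV
    obtain ⟨e, he, rfl⟩ := hv hvV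
    exact he
  · right
    filter_upwards [hs _ hk] with v hv hvV
    obtain ⟨e, he, rfl⟩ := hv hvV
    exact he

theorem small_of (δ : ℝ) (h0 : 0 < δ) (h1 : δ < 1) (A B X : ℝ) (hA : 0 ≤ A) (hB : 0 ≤ B)
    (hX' : X < δ ^ 12 / 3) (hp : A * B < δ ^ 24 / 3)
    (h12 : A ^ 12 ≤ X + A ^ 5 * B + B ^ 12) (h21 : B ^ 12 ≤ X + A ^ 5 * B + A ^ 12) :
    A < δ ∧ B < δ := by
  have hpow : ∀ k : ℕ, δ ^ k ≤ 1 := fun k => pow_le_one₀ h0.le h1.le
  have hpp : ∀ k : ℕ, 0 < δ ^ k := fun k => pow_pos h0 k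
  -- if one of the numbers is at least `δ` then the other one is small
  have small : ∀ A B : ℝ, 0 ≤ A → 0 ≤ B → A * B < δ ^ 24 / 3 → δ ≤ A → B < δ / 3 := by
    intro A B hA hB hp hδ
    have h2 : δ * B ≤ A * B := mul_le_mul_of_nonneg_right hδ hB
    have h3 : δ ^ 24 / 3 ≤ δ * (δ / 3) := by
      have h4 : δ ^ 24 = δ ^ 2 * δ ^ 22 := by ring
      have h5 : δ ^ 2 * δ ^ 22 ≤ δ ^ 2 * 1 := mul_le_mul_of_nonneg_left (hpow 22) (hpp 2).le
      nlinarith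
    by_contra h4
    push Not at h4
    have h5 : δ * (δ / 3) ≤ δ * B := mul_le_mul_of_nonneg_left h4 h0.le
    linarith
  have pow12 : ∀ B : ℝ, 0 ≤ B → B < δ / 3 → B ^ 12 < δ ^ 12 / 3 := by
    intro B hB hB'
    have h2 : B ^ 12 ≤ (δ / 3) ^ 12 := pow_le_pow_left₀ hB hB'.le 12
    have h3 : (δ / 3) ^ 12 < δ ^ 12 / 3 := by
      rw [div_pow]
      have := hpp 12
      apply div_lt_div_of_pos_left this (by norm_num) (by norm_num)
    linarith
  constructor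
  · by_contra hδ
    push Not at hδ
    have hB' := small A B hA hB hp hδ
    have hB12 := pow12 B hB hB'
    have hA4 : δ ^ 4 ≤ A ^ 4 := pow_le_pow_left₀ h0.le hδ 4
    have hA8 : δ ^ 8 ≤ A ^ 8 := pow_le_pow_left₀ h0.le hδ 8
    have hA4p : 0 < A ^ 4 := lt_of_lt_of_le (hpp 4) hA4
    have e1 : A ^ 4 * δ ^ 8 ≤ A ^ 12 := by
      have : A ^ 12 = A ^ 4 * A ^ 8 := by ring
      rw [this]
      exact mul_le_mul_of_nonneg_left hA8 hA4p.le
    have e2 : A ^ 5 * B ≤ A ^ 4 * δ ^ 8 / 3 := by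
      have : A ^ 5 * B = A ^ 4 * (A * B) := by ring
      rw [this]
      have h3 : A * B ≤ δ ^ 8 / 3 := by
        have h4 : δ ^ 24 = δ ^ 8 * δ ^ 16 := by ring
        have h5 : δ ^ 8 * δ ^ 16 ≤ δ ^ 8 * 1 := mul_le_mul_of_nonneg_left (hpow 16) (hpp 8).le
        linarith
      calc A ^ 4 * (A * B) ≤ A ^ 4 * (δ ^ 8 / 3) := mul_le_mul_of_nonneg_left h3 hA4p.le
        _ = A ^ 4 * δ ^ 8 / 3 := by ring
    have e3 : δ ^ 12 ≤ A ^ 4 * δ ^ 8 := by
      have : δ ^ 12 = δ ^ 4 * δ ^ 8 := by ring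
      rw [this]
      exact mul_le_mul_of_nonneg_right hA4 (hpp 8).le
    linarith
  · by_contra hδ
    push Not at hδ
    have hA' := small B A hB hA (by rwa [mul_comm]) hδ
    have hA12 := pow12 A hA hA'
    have e1 : δ ^ 12 ≤ B ^ 12 := pow_le_pow_left₀ h0.le hδ 12
    have e2 : A ^ 5 * B ≤ δ ^ 12 / 3 := by
      have : A ^ 5 * B = A ^ 4 * (A * B) := by ring
      rw [this]
      have h3 : A ^ 4 ≤ 1 := pow_le_one₀ hA (by linarith)
      have h4 : A * B ≤ δ ^ 12 / 3 := by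
        have h4 : δ ^ 24 = δ ^ 12 * δ ^ 12 := by ring
        have h5 : δ ^ 12 * δ ^ 12 ≤ δ ^ 12 * 1 := mul_le_mul_of_nonneg_left (hpow 12) (hpp 12).le
        linarith
      calc A ^ 4 * (A * B) ≤ 1 * (A * B) := mul_le_mul_of_nonneg_right h3 (mul_nonneg hA hB)
        _ ≤ δ ^ 12 / 3 := by linarith
    linarith

/-- the common equation -/
noncomputable def geps {m : ℕ} (ε : ℂ) (v : Fin (m + 3) → ℂ) : ℂ :=
  v 1 * (v 2 ^ 3 * v 0 + v 1 ^ 5 + ε * (v 2 ^ 2 * v 1 ^ 2)) + v 2 ^ 6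

/-- the parametrisation -/
noncomputable def phi {m : ℕ} (ε : ℂ) (e : ℂ × ℂ × (Fin (m + 3) → ℂ)) : Fin (m + 3) → ℂ :=
  Function.update (Function.update (Function.update e.2.2 0
    (-(e.1 ^ 12 + ε * (e.1 ^ 5 * e.2.1) + e.2.1 ^ 12))) 1 (e.1 ^ 3 * e.2.1 ^ 3)) 2 (e.1 * e.2.1 ^ 5)

theorem phi0 {m : ℕ} (ε : ℂ) (e : ℂ × ℂ × (Fin (m + 3) → ℂ)) :
    phi ε e 0 = -(e.1 ^ 12 + ε * (e.1 ^ 5 * e.2.1) + e.2.1 ^ 12) := by
  unfold phi
  rw [Function.update_of_ne h02, Function.update_of_ne h01, Function.update_self]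

theorem phi1 {m : ℕ} (ε : ℂ) (e : ℂ × ℂ × (Fin (m + 3) → ℂ)) :
    phi ε e 1 = e.1 ^ 3 * e.2.1 ^ 3 := by
  unfold phi
  rw [Function.update_of_ne h12, Function.update_self]

theorem phi2 {m : ℕ} (ε : ℂ) (e : ℂ × ℂ × (Fin (m + 3) → ℂ)) :
    phi ε e 2 = e.1 * e.2.1 ^ 5 := by
  unfold phi
  rw [Function.update_self]

theorem phi_other {m : ℕ} (ε : ℂ) (e : ℂ × ℂ × (Fin (m + 3) → ℂ)) (i : Fin (m + 3)) (h0 : i ≠ 0)
    (h1 : i ≠ 1) (h2 : i ≠ 2) : phi ε e i = e.2.2 i := by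
  unfold phi
  rw [Function.update_of_ne h2, Function.update_of_ne h1, Function.update_of_ne h0]

theorem phi_mem {m : ℕ} (ε : ℂ) (e : ℂ × ℂ × (Fin (m + 3) → ℂ)) : geps ε (phi ε e) = 0 := by
  unfold geps
  rw [phi0, phi1, phi2]
  ring

theorem phi_zero {m : ℕ} (ε : ℂ) : phi ε (0 : ℂ × ℂ × (Fin (m + 3) → ℂ)) = 0 := by
  funext i
  by_cases h2 : i = 2
  · subst h2
    rw [phi2]
    simp
  by_cases h1 : i = 1
  · subst h1
    rw [phi1]
    simp
  by_cases h0 : i = 0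
  · subst h0
    rw [phi0]
    simp
  · rw [phi_other ε _ i h0 h1 h2]
    rfl

theorem phi_analytic {m : ℕ} (ε : ℂ) :
    AnalyticAt ℂ (phi (m := m) ε) 0 := by
  have a1 : AnalyticAt ℂ (fun e : ℂ × ℂ × (Fin (m + 3) → ℂ) => e.1) 0 := analyticAt_fst
  have a2' : AnalyticAt ℂ (fun e : ℂ × ℂ × (Fin (m + 3) → ℂ) => e.2) 0 := analyticAt_snd
  have a2 : AnalyticAt ℂ (fun e : ℂ × ℂ × (Fin (m + 3) → ℂ) => e.2.1) 0 :=
    ((ContinuousLinearMap.fst ℂ ℂ (Fin (m + 3) → ℂ)).comp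
      (ContinuousLinearMap.snd ℂ ℂ (ℂ × (Fin (m + 3) → ℂ)))).analyticAt 0
  have a3 : ∀ i, AnalyticAt ℂ (fun e : ℂ × ℂ × (Fin (m + 3) → ℂ) => e.2.2 i) 0 := fun i =>
    ((ContinuousLinearMap.proj (R := ℂ) (φ := fun _ : Fin (m + 3) => ℂ) i).comp
      ((ContinuousLinearMap.snd ℂ ℂ (Fin (m + 3) → ℂ)).comp
      (ContinuousLinearMap.snd ℂ ℂ (ℂ × (Fin (m + 3) → ℂ))))).analyticAt 0
  rw [analyticAt_pi_iff]
  intro i
  by_cases h2 : i = 2
  · subst h2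
    have : (fun e : ℂ × ℂ × (Fin (m + 3) → ℂ) => phi ε e 2) = fun e => e.1 * e.2.1 ^ 5 :=
      funext fun e => phi2 ε e
    rw [this]
    exact a1.mul (a2.pow 5)
  by_cases h1 : i = 1
  · subst h1
    have : (fun e : ℂ × ℂ × (Fin (m + 3) → ℂ) => phi ε e 1) = fun e => e.1 ^ 3 * e.2.1 ^ 3 :=
      funext fun e => phi1 ε e
    rw [this]
    exact (a1.pow 3).mul (a2.pow 3)
  by_cases h0 : i = 0
  · subst h0
    have : (fun e : ℂ × ℂ × (Fin (m + 3) → ℂ) => phi ε e 0)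
        = fun e => -(e.1 ^ 12 + ε * (e.1 ^ 5 * e.2.1) + e.2.1 ^ 12) := funext fun e => phi0 ε e
    rw [this]
    exact (((a1.pow 12).add (analyticAt_const.mul ((a1.pow 5).mul a2))).add (a2.pow 12)).neg
  · have : (fun e : ℂ × ℂ × (Fin (m + 3) → ℂ) => phi ε e i) = fun e => e.2.2 i :=
      funext fun e => phi_other ε e i h0 h1 h2
    rw [this]
    exact a3 i

/-- the parametrisation of the small points -/
theorem phi_onto {m : ℕ} (ε : ℂ) (hε : ‖ε‖ ≤ 1) (δ : ℝ) (h0 : 0 < δ) (h1 : δ < 1)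
    (p : Fin (m + 3) → ℂ) (hp : geps ε p = 0) (hx : ‖p 0‖ < δ ^ 12 / 3)
    (hy : ‖p 1‖ < (δ ^ 24 / 3) ^ 3) : ∃ u v : ℂ, ‖u‖ < δ ∧ ‖v‖ < δ ∧ phi ε (u, v, p) = p := by
  have ext3 : ∀ u v : ℂ, -(u ^ 12 + ε * (u ^ 5 * v) + v ^ 12) = p 0 → u ^ 3 * v ^ 3 = p 1 →
      u * v ^ 5 = p 2 → phi ε (u, v, p) = p := by
    intro u v e0 e1 e2
    funext i
    by_cases h2 : i = 2
    · subst h2
      rw [phi2]
      exact e2
    by_cases h1 : i = 1
    · subst h1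
      rw [phi1]
      exact e1
    by_cases h0 : i = 0
    · subst h0
      rw [phi0]
      exact e0
    · rw [phi_other ε _ i h0 h1 h2]
  unfold geps at hp
  by_cases hyz : p 1 = 0 ∨ p 2 = 0
  · have hy0 : p 1 = 0 ∧ p 2 = 0 := by
      rcases hyz with h | h
      · refine ⟨h, ?_⟩
        rw [h] at hp
        have : p 2 ^ 6 = 0 := by linear_combination hp
        exact (pow_eq_zero_iff (by norm_num)).1 this
      · refine ⟨?_, h⟩
        rw [h] at hp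
        have : p 1 ^ 6 = 0 := by linear_combination hp
        exact (pow_eq_zero_iff (by norm_num)).1 this
    obtain ⟨v, hv⟩ := IsAlgClosed.exists_pow_nat_eq (-(p 0)) (n := 12) (by norm_num)
    refine ⟨0, v, by simpa using h0, ?_, ext3 0 v ?_ ?_ ?_⟩
    · have h2 : ‖v‖ ^ 12 < δ ^ 12 := by
        rw [← norm_pow, hv, norm_neg]
        have := pow_pos h0 12
        linarith
      exact lt_of_pow_lt_pow_left₀ 12 h0.le h2
    · rw [hv]
      ring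
    · rw [hy0.1]
      ring
    · rw [hy0.2]
      ring
  · push Not at hyz
    obtain ⟨hy0, hz0⟩ := hyz
    obtain ⟨v, hv⟩ := IsAlgClosed.exists_pow_nat_eq (p 2 ^ 3 / p 1) (n := 12) (by norm_num)
    have hv0 : v ≠ 0 := by
      rintro rfl
      have : p 2 ^ 3 / p 1 = 0 := by
        rw [← hv]
        norm_num
      exact div_ne_zero (pow_ne_zero 3 hz0) hy0 this
    set u : ℂ := p 2 / v ^ 5 with hu
    have e2 : u * v ^ 5 = p 2 := by
      rw [hu]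
      field_simp
    have hv' : v ^ 12 * p 1 = p 2 ^ 3 := by
      rw [hv]
      field_simp
    have hu0 : u ≠ 0 := div_ne_zero hz0 (pow_ne_zero 5 hv0)
    have e1 : u ^ 3 * v ^ 3 = p 1 := by
      have h3 : v ^ 12 * (u ^ 3 * v ^ 3) = v ^ 12 * p 1 := by
        rw [hv', ← e2]
        ring
      exact mul_left_cancel₀ (pow_ne_zero 12 hv0) h3
    have e0 : -(u ^ 12 + ε * (u ^ 5 * v) + v ^ 12) = p 0 := by
      rw [← e1, ← e2] at hp
      have h3 : (u ^ 6 * v ^ 18) * (p 0 + (u ^ 12 + ε * (u ^ 5 * v) + v ^ 12)) = 0 := by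
        linear_combination hp
      have h4 := (mul_eq_zero.1 h3).resolve_left
        (mul_ne_zero (pow_ne_zero 6 hu0) (pow_ne_zero 18 hv0))
      linear_combination -h4
    have hAB : ‖u‖ * ‖v‖ < δ ^ 24 / 3 := by
      have h3 : (‖u‖ * ‖v‖) ^ 3 < (δ ^ 24 / 3) ^ 3 := by
        have : (‖u‖ * ‖v‖) ^ 3 = ‖p 1‖ := by
          rw [← e1, norm_mul, norm_pow, norm_pow]
          ring
        rw [this]
        exact hy
      exact lt_of_pow_lt_pow_left₀ 3 (by positivity) h3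
    have hmid : ‖ε * (u ^ 5 * v)‖ ≤ ‖u‖ ^ 5 * ‖v‖ := by
      rw [norm_mul, norm_mul, norm_pow]
      calc ‖ε‖ * (‖u‖ ^ 5 * ‖v‖) ≤ 1 * (‖u‖ ^ 5 * ‖v‖) :=
            mul_le_mul_of_nonneg_right hε (by positivity)
        _ = _ := one_mul _
    have h12 : ‖u‖ ^ 12 ≤ ‖p 0‖ + ‖u‖ ^ 5 * ‖v‖ + ‖v‖ ^ 12 := by
      have h3 : u ^ 12 = -(p 0 + ε * (u ^ 5 * v) + v ^ 12) := by
        linear_combination -e0
      rw [← norm_pow, h3, norm_neg]
      have h4 := norm_add₃_le (a := p 0) (b := ε * (u ^ 5 * v)) (c := v ^ 12)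
      rw [norm_pow] at h4
      linarith
    have h21 : ‖v‖ ^ 12 ≤ ‖p 0‖ + ‖u‖ ^ 5 * ‖v‖ + ‖u‖ ^ 12 := by
      have h3 : v ^ 12 = -(p 0 + ε * (u ^ 5 * v) + u ^ 12) := by
        linear_combination -e0
      rw [← norm_pow, h3, norm_neg]
      have h4 := norm_add₃_le (a := p 0) (b := ε * (u ^ 5 * v)) (c := u ^ 12)
      rw [norm_pow u] at h4
      linarith
    obtain ⟨hA, hB⟩ := small_of δ h0 h1 ‖u‖ ‖v‖ ‖p 0‖ (norm_nonneg _) (norm_nonneg _) hx hAB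
      h12 h21
    exact ⟨u, v, hA, hB, ext3 u v e0 e1 e2⟩

theorem irr_geps {m : ℕ} (ε : ℂ) (hε : ‖ε‖ ≤ 1) :
    IsIrreducibleGerm {v : Fin (m + 3) → ℂ | geps ε v = 0} := by
  refine irr_of_param _ (phi ε) (phi_analytic ε) (phi_zero ε) (fun e => phi_mem ε e) ?_
  intro N hN
  obtain ⟨r, hr, hball⟩ := Metric.mem_nhds_iff.1 hN
  set δ : ℝ := min (r / 2) (1 / 2) with hδ
  have h0 : 0 < δ := lt_min (by linarith) (by norm_num)
  have h1 : δ < 1 := lt_of_le_of_lt (min_le_right _ _) (by norm_num)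
  have hδr : δ < r := lt_of_le_of_lt (min_le_left _ _) (by linarith)
  have hη : 0 < min δ (min (δ ^ 12 / 3) ((δ ^ 24 / 3) ^ 3)) := by
    refine lt_min h0 (lt_min (by positivity) (by positivity))
  refine Metric.eventually_nhds_iff_ball.2 ⟨_, hη, ?_⟩
  intro p hp hpV
  rw [mem_ball_zero_iff] at hp
  have hp1 : ‖p‖ < δ := lt_of_lt_of_le hp (min_le_left _ _)
  have hp2 : ‖p‖ < δ ^ 12 / 3 := lt_of_lt_of_le hp ((min_le_right _ _).trans (min_le_left _ _))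
  have hp3 : ‖p‖ < (δ ^ 24 / 3) ^ 3 :=
    lt_of_lt_of_le hp ((min_le_right _ _).trans (min_le_right _ _))
  obtain ⟨u, v, hu, hv, huv⟩ := phi_onto ε hε δ h0 h1 p hpV
    (lt_of_le_of_lt (norm_le_pi_norm p 0) hp2) (lt_of_le_of_lt (norm_le_pi_norm p 1) hp3)
  refine ⟨(u, v, p), hball ?_, huv⟩
  rw [mem_ball_zero_iff, Prod.norm_mk, Prod.norm_mk]
  exact max_lt (hu.trans hδr) (max_lt (hv.trans hδr) (hp1.trans hδr))

theorem zero_eq0 (m : ℕ) : zeroSet (f₀ m) = {v | geps 0 v = 0} := by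
  ext v
  rw [mem_f₀]
  show _ ↔ geps 0 v = 0
  unfold geps
  rw [zero_mul, add_zero]

theorem zero_eq1 (m : ℕ) : zeroSet (f₁ m) = {v | geps 1 v = 0} := by
  ext v
  rw [mem_f₁]
  show _ ↔ geps 1 v = 0
  unfold geps
  rw [one_mul]

theorem germ_geps {m : ℕ} (ε : ℂ) : IsHypersurfaceGerm {v : Fin (m + 3) → ℂ | geps ε v = 0} := by
  refine ⟨geps ε, ?_, ?_, ?_, Filter.Eventually.of_forall fun v => Iff.rfl⟩
  · have hp : ∀ i, AnalyticAt ℂ (fun v : Fin (m + 3) → ℂ => v i) 0 := fun i =>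
      (ContinuousLinearMap.proj (R := ℂ) (φ := fun _ : Fin (m + 3) => ℂ) i).analyticAt 0
    exact ((hp 1).mul (((((hp 2).pow 3).mul (hp 0)).add ((hp 1).pow 5)).add
      (analyticAt_const.mul (((hp 2).pow 2).mul ((hp 1).pow 2))))).add ((hp 2).pow 6)
  · simp [geps]
  · intro h
    have hcont : Continuous (fun σ : ℂ => Function.update (0 : Fin (m + 3) → ℂ) 1 σ) :=
      continuous_const.update 1 continuous_id
    have hc : Tendsto (fun σ : ℂ => Function.update (0 : Fin (m + 3) → ℂ) 1 σ) (𝓝[≠] 0)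
        (𝓝 0) := by
      have h2 := hcont.tendsto 0
      have h3 : Function.update (0 : Fin (m + 3) → ℂ) 1 0 = 0 :=
        Function.update_eq_self 1 (0 : Fin (m + 3) → ℂ)
      rw [h3] at h2
      exact h2.mono_left nhdsWithin_le_nhds
    have h4 := hc.eventually h
    have h5 : ∀ᶠ σ : ℂ in 𝓝[≠] 0, σ ≠ 0 := self_mem_nhdsWithin
    obtain ⟨σ, h6, h7⟩ := (h4.and h5).exists
    unfold geps at h6
    rw [Function.update_self, Function.update_of_ne h21, Function.update_of_ne h01] at h6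
    simp at h6
    exact h7 h6

end Pool.Agent.KS6_33.ZB
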